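import Mathlib

/-!
# Arcs in Hausdorff spaces
-/

set_option autoImplicit false

namespace Pool.Agent.MergeTree

open Set Filter Topology

variable {Z : Type*} [TopologicalSpace Z]

/-- `c` is an injective path on `[a, b]` from `x` to `y`. -/
structure IsArc (c : ℝ → Z) (a b : ℝ) (x y : Z) : Prop where
  lt : a < b
  cont : ContinuousOn c (Icc a b)
  inj : InjOn c (Icc a b)
  left : c a = x
  right : c b = y

/-- `x` and `y` are equal or joined by an injective path. -/
def ArcJoined (x y : Z) : Prop := x = y ∨ ∃ (c : ℝ → Z) (a b : ℝ), IsArc c a b x y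

lemma IsArc.ne {c : ℝ → Z} {a b : ℝ} {x y : Z} (h : IsArc c a b x y) : x ≠ y := by
  intro hxy
  have := h.inj (left_mem_Icc.2 h.lt.le) (right_mem_Icc.2 h.lt.le) (by rw [h.left, h.right, hxy])
  exact h.lt.ne this

lemma IsArc.sub {c : ℝ → Z} {a b : ℝ} {x y : Z} (h : IsArc c a b x y) {a' b' : ℝ}
    (ha : a ≤ a') (hab : a' < b') (hb : b' ≤ b) : IsArc c a' b' (c a') (c b') :=
  ⟨hab, h.cont.mono (Icc_subset_Icc ha hb), h.inj.mono (Icc_subset_Icc ha hb), rfl, rfl⟩

/-- Reparametrise an arc by a translation. -/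
lemma IsArc.shift {c : ℝ → Z} {a b : ℝ} {x y : Z} (h : IsArc c a b x y) (d : ℝ) :
    IsArc (fun t => c (t - d)) (a + d) (b + d) x y := by
  refine ⟨by linarith [h.lt], ?_, ?_, by simp [h.left], by simp [h.right]⟩
  · refine h.cont.comp (by fun_prop) ?_
    intro t ht
    exact ⟨by linarith [ht.1], by linarith [ht.2]⟩
  · intro s hs t ht hst
    have := h.inj (x₁ := s - d) (x₂ := t - d) ⟨by linarith [hs.1], by linarith [hs.2]⟩
      ⟨by linarith [ht.1], by linarith [ht.2]⟩ hst
    linarith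

/-- Reverse an arc. -/
lemma IsArc.reverse {c : ℝ → Z} {a b : ℝ} {x y : Z} (h : IsArc c a b x y) :
    IsArc (fun t => c (-t)) (-b) (-a) y x := by
  refine ⟨by linarith [h.lt], ?_, ?_, by simp [h.right], by simp [h.left]⟩
  · refine h.cont.comp (by fun_prop) ?_
    intro t ht
    exact ⟨by linarith [ht.2], by linarith [ht.1]⟩
  · intro s hs t ht hst
    have := h.inj (x₁ := -s) (x₂ := -t) ⟨by linarith [hs.2], by linarith [hs.1]⟩
      ⟨by linarith [ht.2], by linarith [ht.1]⟩ hst
    linarith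

/-- Concatenation of two arcs meeting only at the common end point. -/
lemma IsArc.concat {c d : ℝ → Z} {a b e : ℝ} {x y z : Z} (h : IsArc c a b x y)
    (h' : IsArc d b e y z) (hdisj : ∀ s ∈ Icc a b, ∀ t ∈ Icc b e, c s = d t → t = b) :
    IsArc (fun t => if t ≤ b then c t else d t) a e x z := by
  refine ⟨h.lt.trans h'.lt, ?_, ?_, ?_, ?_⟩
  · have hU : Icc a e = Icc a b ∪ Icc b e := (Icc_union_Icc_eq_Icc h.lt.le h'.lt.le).symm
    rw [hU]
    refine ContinuousOn.union_of_isClosed ?_ ?_ isClosed_Icc isClosed_Icc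
    · refine h.cont.congr ?_
      intro t ht
      simp [ht.2]
    · refine h'.cont.congr ?_
      intro t ht
      by_cases htb : t ≤ b
      · have : t = b := le_antisymm htb ht.1
        subst this
        simp [h.right, h'.left]
      · simp [htb]
  · intro s hs t ht hst
    by_cases hsb : s ≤ b <;> by_cases htb : t ≤ b
    · simp only [hsb, htb, if_true] at hst
      exact h.inj ⟨hs.1, hsb⟩ ⟨ht.1, htb⟩ hst
    · simp only [hsb, htb, if_true, if_false] at hst
      have := hdisj s ⟨hs.1, hsb⟩ t ⟨(not_le.1 htb).le, ht.2⟩ hst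
      exact absurd this.le htb
    · simp only [hsb, htb, if_true, if_false] at hst
      have := hdisj t ⟨ht.1, htb⟩ s ⟨(not_le.1 hsb).le, hs.2⟩ hst.symm
      exact absurd this.le hsb
    · simp only [hsb, htb, if_false] at hst
      exact h'.inj ⟨(not_le.1 hsb).le, hs.2⟩ ⟨(not_le.1 htb).le, ht.2⟩ hst
  · simp [h.lt.le, h.left]
  · simp [not_le.2 h'.lt, h'.right]

lemma ArcJoined.symm {x y : Z} (h : ArcJoined x y) : ArcJoined y x := by
  rcases h with rfl | ⟨c, a, b, h⟩
  · exact Or.inl rfl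
  · exact Or.inr ⟨_, _, _, h.reverse⟩

lemma ArcJoined.trans [T2Space Z] {x y z : Z} (h : ArcJoined x y) (h' : ArcJoined y z) :
    ArcJoined x z := by
  rcases h with rfl | ⟨c, a, b, h⟩
  · exact h'
  rcases h' with rfl | ⟨d, a', e, h'⟩
  · exact Or.inr ⟨c, a, b, h⟩
  by_cases hxz : x = z
  · exact Or.inl hxz
  -- the set of times when `c` is in the image of `d`
  have hcomp : IsCompact (d '' Icc a' e) := isCompact_Icc.image_of_continuousOn h'.cont
  have hclosed : IsClosed (Icc a b ∩ c ⁻¹' (d '' Icc a' e)) :=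
    h.cont.preimage_isClosed_of_isClosed isClosed_Icc hcomp.isClosed
  have hK : IsCompact (Icc a b ∩ c ⁻¹' (d '' Icc a' e)) :=
    isCompact_Icc.of_isClosed_subset hclosed inter_subset_left
  have hne : (Icc a b ∩ c ⁻¹' (d '' Icc a' e)).Nonempty :=
    ⟨b, right_mem_Icc.2 h.lt.le, a', left_mem_Icc.2 h'.lt.le, by rw [h'.left, h.right]⟩
  obtain ⟨s, ⟨hsI, t, htI, hst⟩, hleast⟩ := hK.exists_isLeast hne
  by_cases hsa : s = a
  · -- `x` is on `d`
    subst hsa
    by_cases hte : t = e
    · subst hte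
      exact absurd (by rw [← h.left, ← hst, h'.right]) hxz
    · have := h'.sub htI.1 (lt_of_le_of_ne htI.2 hte) le_rfl
      rw [hst, h.left, h'.right] at this
      exact Or.inr ⟨_, _, _, this⟩
  · have hsa' : a < s := lt_of_le_of_ne hsI.1 (Ne.symm hsa)
    have h1 := h.sub le_rfl hsa' hsI.2
    rw [h.left] at h1
    by_cases hte : t = e
    · subst hte
      rw [← hst, h'.right] at h1
      exact Or.inr ⟨_, _, _, h1⟩
    · have h2 := (h'.sub htI.1 (lt_of_le_of_ne htI.2 hte) le_rfl).shift (s - t)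
      rw [hst, h'.right] at h2
      have h3 : t + (s - t) = s := by ring
      rw [h3] at h2
      refine Or.inr ⟨_, _, _, h1.concat h2 ?_⟩
      intro u hu v hv huv
      have hmem : u ∈ Icc a b ∩ c ⁻¹' (d '' Icc a' e) := by
        refine ⟨⟨hu.1, hu.2.trans hsI.2⟩, v - (s - t), ⟨?_, ?_⟩, huv.symm⟩
        · linarith [hv.1, htI.1]
        · linarith [hv.2]
      have hus : u = s := le_antisymm hu.2 (hleast hmem)
      subst hus
      have := h'.inj (x₁ := v - (u - t)) (x₂ := t) ⟨by linarith [hv.1, htI.1], by linarith [hv.2]⟩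
        htI (huv.symm.trans hst.symm)
      linarith

end Pool.Agent.MergeTree
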