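import Mathlib

/-!
# Merge trees, the interleaving distance and its intrinsic versions: definitions
-/

set_option autoImplicit false

namespace Pool.Agent.MergeTree

open Set Filter

open scoped ENNReal NNReal

/-! ### Geometric trees -/

/-- The topological realisation of a finite graph `G` without triangles (we use it for finite
trees): the convex combinations of vertices whose support is a vertex or the two ends of an edge.
Every edge is a copy of `[0, 1]`. -/
def Realization {V : Type} [Fintype V] (G : SimpleGraph V) : Type :=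
  {x : V → ℝ // (∀ v, 0 ≤ x v) ∧ ∑ v, x v = 1 ∧ ∀ u v, x u ≠ 0 → x v ≠ 0 → u ≠ v → G.Adj u v}

/-- The realisation carries the subspace topology from `V → ℝ`. -/
instance Realization.topology {V : Type} [Fintype V] (G : SimpleGraph V) :
    TopologicalSpace (Realization G) :=
  TopologicalSpace.induced Subtype.val Pi.topologicalSpace

/-- The point of the realisation given by the vertex `v`. -/
def vtx {V : Type} [Fintype V] [DecidableEq V] (G : SimpleGraph V) (v : V) : Realization G :=
  ⟨Pi.single v 1, by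
    refine ⟨fun w => ?_, by simp, fun a b ha hb hab => ?_⟩
    · by_cases h : w = v
      · subst h; simp
      · simp [h]
    · exfalso
      apply hab
      have ha' : a = v := by
        by_contra h
        simp [h] at ha
      have hb' : b = v := by
        by_contra h
        simp [h] at hb
      rw [ha', hb']⟩

/-- The origin `0 ∈ [0, 1)`. -/
def zeroRay : Ico (0 : ℝ) 1 := ⟨0, left_mem_Ico.2 one_pos⟩

/-- The relation on `X ⊔ [0, 1)` that identifies the root `x₀ ∈ X` with `0 ∈ [0, 1)`. -/
inductive GlueRel {V : Type} [Fintype V] {G : SimpleGraph V} (x₀ : Realization G) :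
    Realization G ⊕ Ico (0 : ℝ) 1 → Realization G ⊕ Ico (0 : ℝ) 1 → Prop
  | glue : GlueRel x₀ (Sum.inl x₀) (Sum.inr zeroRay)

/-- The space `T = X ⊔ [0, 1) / (x₀ ∼ 0)`. -/
def Glued {V : Type} [Fintype V] {G : SimpleGraph V} (x₀ : Realization G) : Type :=
  Quot (GlueRel x₀)

/-- The quotient topology on `T`. -/
instance Glued.topology {V : Type} [Fintype V] {G : SimpleGraph V} (x₀ : Realization G) :
    TopologicalSpace (Glued x₀) :=
  TopologicalSpace.coinduced (Quot.mk (GlueRel x₀)) instTopologicalSpaceSum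

/-- The inclusion of the geometric tree `X` into `T`. -/
def inX {V : Type} [Fintype V] {G : SimpleGraph V} {x₀ : Realization G} (x : Realization G) :
    Glued x₀ := Quot.mk _ (Sum.inl x)

/-- The inclusion of the half-open interval `[0, 1)` into `T`. -/
def inRay {V : Type} [Fintype V] {G : SimpleGraph V} {x₀ : Realization G} (s : Ico (0 : ℝ) 1) :
    Glued x₀ := Quot.mk _ (Sum.inr s)

end Pool.Agent.MergeTree

namespace Pool.Agent

open Set Filter Pool.Agent.MergeTree

open scoped ENNReal NNReal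

/-- A merge tree `(T, f)`: `T = X ⊔ [0, 1) / (x₀ ∼ 0)` where `X` is the realisation of a finite
tree and `x₀ ∈ X` is any point (the root), and `f : T → ℝ` is continuous, strictly increasing on
`[0, 1)` with `f y → ∞` as `y → 1`, and strictly increasing along every injective path in `X`
ending at `x₀`. -/
structure MTree where
  /-- number of vertices -/
  m : ℕ
  /-- the finite tree -/
  G : SimpleGraph (Fin m)
  isTree : G.IsTree
  /-- the root -/
  x₀ : Realization G
  /-- the height function on `T` -/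
  f : Glued x₀ → ℝ
  continuous_f : Continuous f
  strictMono_ray : StrictMono fun s : Ico (0 : ℝ) 1 => f (inRay s)
  tendsto_ray : Tendsto (fun s : Ico (0 : ℝ) 1 => f (inRay s)) atTop atTop
  strictMono_path : ∀ c : C(unitInterval, Realization G), Function.Injective c → c 1 = x₀ →
    StrictMono fun s => f (inX (c s))

namespace MTree

/-- The underlying space `T` of the merge tree `(T, f)`. -/
abbrev Pt (T : MTree) : Type := Glued T.x₀

/-- The leaves of `(T, f)`: the leaves (vertices of degree one) of `X` other than a leaf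
identified with `0 ∈ [0, 1)`. -/
def leaves (T : MTree) : Set (Fin T.m) :=
  {v | (T.G.neighborSet v).ncard = 1 ∧ vtx T.G v ≠ T.x₀}

/-- `(S, f)` and `(T, f')` are isomorphic: there is a homeomorphism `φ : S → T`
with `f' ∘ φ = f`. -/
def Iso (S T : MTree) : Prop := ∃ φ : S.Pt ≃ₜ T.Pt, ∀ x, T.f (φ x) = S.f x

/-- `y` is reached from `x` by an `f`-increasing path (the constant path being allowed). -/
def Reaches (T : MTree) (x y : T.Pt) : Prop :=
  x = y ∨ ∃ c : Path x y, StrictMono fun s => T.f (c s)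

/-- `T.IsShift t x y` says `y = i^t(x)`: the point `y` is reached from `x` by an `f`-increasing
path and `f y = f x + t`. (For `t ≥ 0` there is exactly one such `y`, see `existsUnique_isShift`.)
-/
def IsShift (T : MTree) (t : ℝ) (x y : T.Pt) : Prop := T.Reaches x y ∧ T.f y = T.f x + t

/-- There is an `ε`-interleaving of `(S, f)` and `(T, f')`: continuous maps `α : S → T`,
`β : T → S` with `f' ∘ α = f + ε`, `f ∘ β = f' + ε`, `β ∘ α = i^{2ε}` and `α ∘ β = i^{2ε}`. -/
def Interleaved (ε : ℝ) (S T : MTree) : Prop :=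
  ∃ (α : C(S.Pt, T.Pt)) (β : C(T.Pt, S.Pt)),
    (∀ x, T.f (α x) = S.f x + ε) ∧ (∀ y, S.f (β y) = T.f y + ε) ∧
    (∀ x, S.IsShift (2 * ε) x (β (α x))) ∧ (∀ y, T.IsShift (2 * ε) y (α (β y)))

/-- The interleaving distance `d_I`, the infimum of the `ε ≥ 0` for which there is an
`ε`-interleaving. -/
noncomputable def dI (S T : MTree) : ℝ≥0∞ := ⨅ (ε : ℝ≥0) (_ : Interleaved ε S T), (ε : ℝ≥0∞)

theorem Iso.refl (S : MTree) : Iso S S := ⟨Homeomorph.refl _, fun _ => rfl⟩

theorem Iso.symm {S T : MTree} (h : Iso S T) : Iso T S := by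
  obtain ⟨φ, hφ⟩ := h
  refine ⟨φ.symm, fun y => ?_⟩
  rw [← hφ (φ.symm y), φ.apply_symm_apply]

theorem Iso.trans {S T U : MTree} (h : Iso S T) (h' : Iso T U) : Iso S U := by
  obtain ⟨φ, hφ⟩ := h
  obtain ⟨ψ, hψ⟩ := h'
  exact ⟨φ.trans ψ, fun x => by rw [Homeomorph.trans_apply, hψ, hφ]⟩

theorem Reaches.map_homeo {S T : MTree} (φ : S.Pt ≃ₜ T.Pt) (hφ : ∀ x, T.f (φ x) = S.f x)
    {x y : S.Pt} (h : S.Reaches x y) : T.Reaches (φ x) (φ y) := by
  rcases h with rfl | ⟨c, hc⟩
  · exact Or.inl rfl
  · refine Or.inr ⟨c.map φ.continuous, ?_⟩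
    intro s t hst
    simp only [Path.map_coe, Function.comp_apply, hφ]
    exact hc hst

theorem IsShift.map_homeo {S T : MTree} (φ : S.Pt ≃ₜ T.Pt) (hφ : ∀ x, T.f (φ x) = S.f x)
    {t : ℝ} {x y : S.Pt} (h : S.IsShift t x y) : T.IsShift t (φ x) (φ y) :=
  ⟨h.1.map_homeo φ hφ, by rw [hφ, hφ, h.2]⟩

theorem Interleaved.congr_left {ε : ℝ} {S S' T : MTree} (h : Iso S S')
    (hI : Interleaved ε S T) : Interleaved ε S' T := by
  obtain ⟨φ, hφ⟩ := h
  obtain ⟨α, β, hα, hβ, hβα, hαβ⟩ := hI
  have hφs : ∀ y, S.f (φ.symm y) = S'.f y := fun y => by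
    rw [← hφ (φ.symm y), φ.apply_symm_apply]
  refine ⟨α.comp ⟨φ.symm, φ.symm.continuous⟩, (⟨φ, φ.continuous⟩ : C(_, _)).comp β, ?_, ?_, ?_, ?_⟩
  · intro x
    simp [hα, hφs]
  · intro y
    simp [hβ, hφ]
  · intro x
    have := (hβα (φ.symm x)).map_homeo φ hφ
    simpa using this
  · intro y
    simpa using hαβ y

theorem Interleaved.symm {ε : ℝ} {S T : MTree} (h : Interleaved ε S T) : Interleaved ε T S := by
  obtain ⟨α, β, hα, hβ, hβα, hαβ⟩ := h
  exact ⟨β, α, hβ, hα, hαβ, hβα⟩

theorem dI_comm (S T : MTree) : dI S T = dI T S := by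
  unfold dI
  congr 1
  ext ε
  have : Interleaved ε S T ↔ Interleaved ε T S := ⟨Interleaved.symm, Interleaved.symm⟩
  simp only [this]

theorem dI_congr_left {S S' : MTree} (T : MTree) (h : Iso S S') : dI S T = dI S' T := by
  unfold dI
  congr 1
  ext ε
  have : Interleaved ε S T ↔ Interleaved ε S' T :=
    ⟨Interleaved.congr_left h, Interleaved.congr_left h.symm⟩
  simp only [this]

/-- Isomorphism of merge trees as a setoid. -/
instance isoSetoid : Setoid MTree :=
  ⟨Iso, ⟨Iso.refl, Iso.symm, Iso.trans⟩⟩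

end MTree

/-- The set `MT` of isomorphism classes of merge trees. -/
def MT : Type := Quotient MTree.isoSetoid

namespace MT

open MTree

/-- The isomorphism class of a merge tree. -/
def mk (T : MTree) : MT := Quotient.mk isoSetoid T

/-- The interleaving distance on isomorphism classes. -/
noncomputable def dI (x y : MT) : ℝ≥0∞ :=
  Quotient.liftOn₂ x y MTree.dI fun S T S' T' hS hT => by
    rw [dI_congr_left T hS, MTree.dI_comm S' T, dI_congr_left S' hT, MTree.dI_comm T' S']

/-- `MT_n`: the isomorphism classes of merge trees with at most `n` leaves. -/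
def MTn (n : ℕ) : Set MT := {x | ∃ T : MTree, mk T = x ∧ T.leaves.ncard ≤ n}

/-- `γ : [0, 1] → MT` is continuous (with respect to `d_I`). -/
def IsContinuousPath (γ : unitInterval → MT) : Prop :=
  ∀ t : unitInterval, ∀ ε > 0, ∃ δ > 0, ∀ s : unitInterval,
    |(s : ℝ) - (t : ℝ)| < δ → dI (γ s) (γ t) < ε

/-- The length `L_{d_I}(γ)`: the supremum of `∑ᵢ d_I(γ(tᵢ), γ(tᵢ₋₁))` over all partitions
`0 = t₀ ≤ t₁ ≤ ... ≤ t_k = 1`. -/
noncomputable def length (γ : unitInterval → MT) : ℝ≥0∞ :=
  ⨆ (k : ℕ) (t : Fin (k + 1) → unitInterval)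
    (_ : Monotone t ∧ t 0 = 0 ∧ t (Fin.last k) = 1),
    ∑ i : Fin k, dI (γ (t i.succ)) (γ (t i.castSucc))

/-- The intrinsic metric `(d̂_I)_n(x, y)`: the infimum of the lengths of the continuous paths from
`x` to `y` with image in `MT_n`. -/
noncomputable def intrinsic (n : ℕ) (x y : MT) : ℝ≥0∞ :=
  ⨅ (γ : unitInterval → MT)
    (_ : IsContinuousPath γ ∧ γ 0 = x ∧ γ 1 = y ∧ ∀ t, γ t ∈ MTn n), length γ

end MT

end Pool.Agent
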