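import Pool.Agent.MergeTree.Star

/-!
# The interleaving distance: triangle inequality, lengths of paths
-/

set_option autoImplicit false

namespace Pool.Agent

open Set Filter Topology Pool.Agent.MergeTree

open scoped ENNReal NNReal

namespace MTree

lemma Interleaved.refl (S : MTree) : Interleaved 0 S S := by
  refine ⟨ContinuousMap.id _, ContinuousMap.id _, ?_, ?_, ?_, ?_⟩
  · intro x
    simp
  · intro x
    simp
  · intro x
    exact ⟨Or.inl rfl, by simp⟩
  · intro x
    exact ⟨Or.inl rfl, by simp⟩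

lemma Interleaved.trans {S T U : MTree} {ε ε' : ℝ} (h : Interleaved ε S T)
    (h' : Interleaved ε' T U) : Interleaved (ε + ε') S U := by
  obtain ⟨α, β, hα, hβ, hβα, hαβ⟩ := h
  obtain ⟨α', β', hα', hβ', hβα', hαβ'⟩ := h'
  refine ⟨α'.comp α, β.comp β', ?_, ?_, ?_, ?_⟩
  · intro x
    simp only [ContinuousMap.comp_apply, hα', hα]
    ring
  · intro x
    simp only [ContinuousMap.comp_apply, hβ', hβ]
    ring
  · intro x
    simp only [ContinuousMap.comp_apply]
    refine ⟨?_, ?_⟩
    · rw [reaches_iff_lreach]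
      have h1 := reaches_iff_lreach.1 (hβα x).1
      have h2 := (reaches_iff_lreach.1 (hβα' (α x)).1).map β.continuous hβ
      exact h1.trans h2
    · rw [hβ, hβ', hα', hα]
      ring
  · intro x
    simp only [ContinuousMap.comp_apply]
    refine ⟨?_, ?_⟩
    · rw [reaches_iff_lreach]
      have h1 := reaches_iff_lreach.1 (hαβ' x).1
      have h2 := (reaches_iff_lreach.1 (hαβ (β' x)).1).map α'.continuous hα'
      exact h1.trans h2
    · rw [hα', hα, hβ, hβ']
      ring

lemma dI_self (S : MTree) : dI S S = 0 := by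
  have : dI S S ≤ ((0 : ℝ≥0) : ℝ≥0∞) := iInf₂_le (0 : ℝ≥0) (Interleaved.refl S)
  simpa using this

lemma dI_triangle (S T U : MTree) : dI S U ≤ dI S T + dI T U := by
  conv_rhs => unfold dI
  simp only [ENNReal.iInf_add, ENNReal.add_iInf]
  refine le_iInf fun ε' => le_iInf fun h' => le_iInf fun ε => le_iInf fun h => ?_
  have h2 : Interleaved ((ε + ε' : ℝ≥0) : ℝ) S U := by
    push_cast
    exact h.trans h'
  have := iInf₂_le (f := fun (ε : ℝ≥0) (_ : Interleaved ε S U) => (ε : ℝ≥0∞)) _ h2
  simp only [ENNReal.coe_add] at this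
  exact this

lemma exists_of_dI_lt {S T : MTree} {r : ℝ≥0∞} (h : dI S T < r) :
    ∃ ε : ℝ≥0, (ε : ℝ≥0∞) < r ∧ Interleaved ε S T := by
  unfold dI at h
  simp only [iInf_lt_iff] at h
  obtain ⟨ε, hI, hε⟩ := h
  exact ⟨ε, hε, hI⟩

end MTree

namespace MT

lemma dI_mk (S T : MTree) : dI (mk S) (mk T) = MTree.dI S T := rfl

lemma dI_self (x : MT) : dI x x = 0 := by
  induction x using Quotient.inductionOn with
  | h S => exact MTree.dI_self S

lemma dI_comm (x y : MT) : dI x y = dI y x := by
  induction x using Quotient.inductionOn with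
  | h S =>
    induction y using Quotient.inductionOn with
    | h T => exact MTree.dI_comm S T

lemma dI_triangle (x y z : MT) : dI x z ≤ dI x y + dI y z := by
  induction x using Quotient.inductionOn with
  | h S =>
    induction y using Quotient.inductionOn with
    | h T =>
      induction z using Quotient.inductionOn with
      | h U => exact MTree.dI_triangle S T U

lemma add_le_length (γ : unitInterval → MT) (t : unitInterval) :
    dI (γ t) (γ 0) + dI (γ 1) (γ t) ≤ length γ := by
  unfold length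
  refine le_iSup_of_le 2 (le_iSup_of_le ![0, t, 1] (le_iSup_of_le ⟨?_, rfl, rfl⟩ ?_))
  · rw [Fin.monotone_iff_le_succ]
    intro i
    fin_cases i
    · exact t.2.1
    · exact t.2.2
  · rw [Fin.sum_univ_two]
    exact le_rfl

lemma dI_le_length (γ : unitInterval → MT) : dI (γ 1) (γ 0) ≤ length γ := by
  have := add_le_length γ 0
  rw [dI_self, zero_add] at this
  exact this

lemma dI_le_intrinsic (n : ℕ) (x y : MT) : dI x y ≤ intrinsic n x y := by
  unfold intrinsic
  refine le_iInf fun γ => le_iInf fun h => ?_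
  obtain ⟨-, h0, h1, -⟩ := h
  rw [dI_comm, ← h0, ← h1]
  exact dI_le_length γ

/-- A continuous path from `x` to `y` passes through a point at distance at least `r` from both,
if no point of `A` is at distance less than `r` from both and the path stays in `A`. -/
lemma exists_far {A : Set MT} {x y : MT} {r : ℝ≥0∞} (hr : 0 < r)
    (hA : ∀ z ∈ A, ¬ (dI z x < r ∧ dI z y < r)) {γ : unitInterval → MT}
    (hγ : IsContinuousPath γ) (h0 : γ 0 = x) (h1 : γ 1 = y) (hγA : ∀ t, γ t ∈ A) :
    ∃ t, r ≤ dI (γ t) x ∧ r ≤ dI (γ t) y := by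
  by_contra hcon
  push Not at hcon
  have hopen : ∀ z : MT, IsOpen {t : unitInterval | dI (γ t) z < r} := by
    intro z
    rw [Metric.isOpen_iff]
    intro t ht
    have ht' : dI (γ t) z < r := ht
    obtain ⟨δ, hδ, hδ'⟩ := hγ t (r - dI (γ t) z) (tsub_pos_of_lt ht')
    refine ⟨δ, hδ, fun s hs => ?_⟩
    have h2 := hδ' s (by rw [Metric.mem_ball, Subtype.dist_eq, Real.dist_eq] at hs; exact hs)
    show dI (γ s) z < r
    calc dI (γ s) z ≤ dI (γ s) (γ t) + dI (γ t) z := dI_triangle _ _ _
      _ < (r - dI (γ t) z) + dI (γ t) z := ENNReal.add_lt_add_right (ne_top_of_lt ht') h2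
      _ = r := tsub_add_cancel_of_le ht'.le
  have hpre : IsPreconnected (univ : Set unitInterval) := isPreconnected_univ
  have := hpre {t | dI (γ t) x < r} {t | dI (γ t) y < r} (hopen x) (hopen y) (by
    intro t _
    by_cases ht : dI (γ t) x < r
    · exact Or.inl ht
    · exact Or.inr (hcon t (not_lt.1 ht))) ⟨0, mem_univ _, by
      show dI (γ 0) x < r
      rw [h0, dI_self]
      exact hr⟩ ⟨1, mem_univ _, by
      show dI (γ 1) y < r
      rw [h1, dI_self]
      exact hr⟩
  obtain ⟨t, -, ht1, ht2⟩ := this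
  exact hA (γ t) (hγA t) ⟨ht1, ht2⟩

lemma two_mul_le_intrinsic {n : ℕ} {x y : MT} {r : ℝ≥0∞} (hr : 0 < r)
    (hA : ∀ z ∈ MTn n, ¬ (dI z x < r ∧ dI z y < r)) : 2 * r ≤ intrinsic n x y := by
  unfold intrinsic
  refine le_iInf fun γ => le_iInf fun h => ?_
  obtain ⟨hγ, h0, h1, hn⟩ := h
  obtain ⟨t, ht1, ht2⟩ := exists_far hr hA hγ h0 h1 hn
  calc 2 * r = r + r := two_mul r
    _ ≤ dI (γ t) (γ 0) + dI (γ 1) (γ t) := by
      rw [h0, h1, dI_comm y]
      exact add_le_add ht1 ht2
    _ ≤ length γ := add_le_length γ t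

end MT

end Pool.Agent
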