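import Pool.Agent.MergeTree.Dist

/-!
# The two trees
-/

set_option autoImplicit false

namespace Pool.Agent

open Set Filter Topology Pool.Agent.MergeTree

open scoped ENNReal NNReal

namespace MTree

section Ex

variable (k : ℕ) {h : ℝ} (hh : 0 ≤ h)

/-- Heights: centre at `h + 2`, one leaf at `0`, all other leaves at `h`. -/
noncomputable def exHt (h : ℝ) : Fin (k + 2 + 1) → ℝ :=
  fun v => if v = 0 then h + 2 else if v = 1 then 0 else h

lemma exHt_zero (h : ℝ) : exHt k h 0 = h + 2 := by simp [exHt]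

lemma one_ne_zero' : (1 : Fin (k + 2 + 1)) ≠ 0 := by
  intro h
  have := congrArg Fin.val h
  simp at this

lemma exHt_one (h : ℝ) : exHt k h 1 = 0 := by
  unfold exHt
  rw [if_neg (one_ne_zero' k), if_pos rfl]

include hh in
lemma exHt_le {v : Fin (k + 2 + 1)} (hv : v ≠ 0) : exHt k h v ≤ h := by
  unfold exHt
  rw [if_neg hv]
  split_ifs <;> linarith

include hh in
lemma exHt_nonneg (v : Fin (k + 2 + 1)) : 0 ≤ exHt k h v := by
  unfold exHt
  split_ifs <;> linarith

lemma exHt_other {v : Fin (k + 2 + 1)} (hv : v ≠ 0) (hv1 : v ≠ 1) : exHt k h v = h := by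
  unfold exHt
  rw [if_neg hv, if_neg hv1]

include hh in
lemma exHt_lt (v : Fin (k + 2 + 1)) (hv : v ≠ 0) : exHt k h v < exHt k h 0 := by
  have := exHt_le k hh hv
  rw [exHt_zero]
  linarith

/-- The example tree: a star with `k + 2` leaves, one at height `0` and `k + 1` at height `h`,
merging at height `h + 2`. -/
@[reducible] noncomputable def ex : MTree := star (k + 2) (exHt k h) (exHt_lt k hh)

/-- Points of the trunk. -/
noncomputable abbrev trunk (l : ℝ) : (ex k hh).Pt :=
  branch (exHt k h) (exHt_lt k hh) (one_ne_zero' k) l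

lemma f_trunk {l : ℝ} (hl : 0 ≤ l) : (ex k hh).f (trunk k hh l) = l :=
  f_branch _ _ _ (by rw [exHt_one]; exact hl)

/-- Every point is on the trunk or has height at least `h`. -/
lemma trunk_or (p : (ex k hh).Pt) : 0 ≤ (ex k hh).f p ∧
    (p = trunk k hh ((ex k hh).f p) ∨ h ≤ (ex k hh).f p) := by
  obtain ⟨v, hv, hf, hp⟩ := exists_branch (exHt k h) (exHt_lt k hh) (one_ne_zero' k) p
  refine ⟨(exHt_nonneg k hh v).trans hf, ?_⟩
  by_cases hv1 : v = 1
  · subst hv1
    exact Or.inl hp
  · right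
    rw [exHt_other k hv hv1] at hf
    exact hf

lemma lreach_trunk (p : (ex k hh).Pt) :
    (ex k hh).LReach p (trunk k hh ((ex k hh).f p + 2)) := by
  obtain ⟨v, hv, hf, hp⟩ := exists_branch (exHt k h) (exHt_lt k hh) (one_ne_zero' k) p
  have h1 := lreach_branch (exHt k h) (exHt_lt k hh) hv hf
    (show (ex k hh).f p ≤ (ex k hh).f p + 2 by linarith)
  rw [← hp] at h1
  by_cases hv1 : v = 1
  · subst hv1
    exact h1
  · rw [exHt_other k hv hv1] at hf
    have h2 : exHt k h v ≤ (ex k hh).f p + 2 := by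
      rw [exHt_other k hv hv1]
      linarith
    have h3 := eq_branch_of_ge (exHt k h) (exHt_lt k hh) (one_ne_zero' k)
      (p := branch (exHt k h) (exHt_lt k hh) hv ((ex k hh).f p + 2)) (by
        rw [f_branch _ _ hv h2, exHt_zero]
        linarith)
    rw [f_branch _ _ hv h2] at h3
    rw [h3] at h1
    exact h1

/-- The trunk maps give a `1`-interleaving. -/
lemma interleaved_ex {h' : ℝ} (hh' : 0 ≤ h') : Interleaved 1 (ex k hh) (ex k hh') := by
  have hc : ∀ {a b : ℝ} (ha : 0 ≤ a) (hb : 0 ≤ b),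
      Continuous (fun p : (ex k ha).Pt => trunk k hb ((ex k ha).f p + 1)) := by
    intro a b ha hb
    exact (continuous_branch _ _ _).comp ((ex k ha).continuous_f.add continuous_const)
  have hf : ∀ {a b : ℝ} (ha : 0 ≤ a) (hb : 0 ≤ b) (p : (ex k ha).Pt),
      (ex k hb).f (trunk k hb ((ex k ha).f p + 1)) = (ex k ha).f p + 1 := by
    intro a b ha hb p
    have := (trunk_or k ha p).1
    exact f_trunk k hb (by linarith)
  have hs : ∀ {a b : ℝ} (ha : 0 ≤ a) (hb : 0 ≤ b) (p : (ex k ha).Pt),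
      (ex k ha).IsShift (2 * 1) p
        (trunk k ha ((ex k hb).f (trunk k hb ((ex k ha).f p + 1)) + 1)) := by
    intro a b ha hb p
    have h1 := (trunk_or k ha p).1
    rw [hf ha hb p, show (ex k ha).f p + 1 + 1 = (ex k ha).f p + 2 by ring]
    refine ⟨reaches_iff_lreach.2 (lreach_trunk k ha p), ?_⟩
    rw [f_trunk k ha (by linarith)]
    ring
  exact ⟨⟨_, hc hh hh'⟩, ⟨_, hc hh' hh⟩, fun x => hf hh hh' x, fun x => hf hh' hh x,
    fun x => hs hh hh' x, fun x => hs hh' hh x⟩

/-- The `k + 2` points at height `h`. -/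
noncomputable abbrev lv (i : Fin (k + 2)) : (ex k hh).Pt :=
  branch (exHt k h) (exHt_lt k hh) (Fin.succ_ne_zero i) h

lemma f_lv (i : Fin (k + 2)) : (ex k hh).f (lv k hh i) = h :=
  f_branch _ _ _ (exHt_le k hh (Fin.succ_ne_zero i))

/-- Different points at height `h` do not merge before height `h + 2`. -/
lemma lv_merge {i j : Fin (k + 2)} {z : (ex k hh).Pt} (hi : (ex k hh).LReach (lv k hh i) z)
    (hj : (ex k hh).LReach (lv k hh j) z) (hz : (ex k hh).f z < h + 2) : i = j := by
  have hhz : h ≤ (ex k hh).f z := (f_lv k hh i).symm.le.trans hi.1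
  have key : ∀ i, (ex k hh).LReach (lv k hh i) z →
      z = branch (exHt k h) (exHt_lt k hh) (Fin.succ_ne_zero i) ((ex k hh).f z) := by
    intro i hi
    have h1 := lreach_branch (exHt k h) (exHt_lt k hh) (Fin.succ_ne_zero i)
      (exHt_le k hh (Fin.succ_ne_zero i)) hhz
    exact hi.unique h1 (f_branch _ _ _ ((exHt_le k hh (Fin.succ_ne_zero i)).trans hhz)).symm
  by_contra hij
  have h1 := key i hi
  have h2 := key j hj
  refine branch_ne (exHt k h) (exHt_lt k hh) (Fin.succ_ne_zero i) (Fin.succ_ne_zero j)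
    (fun h => hij (Fin.succ_injective _ h)) ((exHt_le k hh (Fin.succ_ne_zero i)).trans hhz)
    (by rw [exHt_zero]; exact hz) ((exHt_le k hh (Fin.succ_ne_zero j)).trans hhz)
    (by rw [exHt_zero]; exact hz) (h1.symm.trans h2)

/-- The key fact: a merge tree with at most `k + 2` leaves is not at distance less than `1` from
both example trees. -/
lemma not_both {h' : ℝ} (hh' : 0 ≤ h') (h3 : h + 3 ≤ h') {S : MTree}
    (hS : S.leaves.ncard ≤ k + 2) {ε ε' : ℝ} (hε0 : 0 ≤ ε) (hε : ε < 1) (hε0' : 0 ≤ ε')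
    (hε' : ε' < 1) (hI : Interleaved ε (ex k hh) S) (hI' : Interleaved ε' S (ex k hh')) :
    False := by
  obtain ⟨α, β, hα, hβ, hβα, hαβ⟩ := hI
  obtain ⟨α', β', hα', hβ', hβα', hαβ'⟩ := hI'
  let A : Fin (k + 2) → S.Pt := fun i => α (lv k hh i)
  let B : Fin (k + 2) → S.Pt := fun i => β' (lv k hh' i)
  have hA : Function.Injective A := by
    intro i j hij
    have hij' : α (lv k hh i) = α (lv k hh j) := hij
    have h1 := reaches_iff_lreach.1 (hβα (lv k hh i)).1
    have h2 := reaches_iff_lreach.1 (hβα (lv k hh j)).1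
    rw [← hij'] at h2
    refine lv_merge k hh h1 h2 ?_
    rw [(hβα (lv k hh i)).2, f_lv]
    linarith
  have hB : Function.Injective B := by
    intro i j hij
    have hij' : β' (lv k hh' i) = β' (lv k hh' j) := hij
    have h1 := reaches_iff_lreach.1 (hαβ' (lv k hh' i)).1
    have h2 := reaches_iff_lreach.1 (hαβ' (lv k hh' j)).1
    rw [← hij'] at h2
    refine lv_merge k hh' h1 h2 ?_
    rw [(hαβ' (lv k hh' i)).2, f_lv]
    linarith
  have hAf : ∀ i, S.f (A i) = h + ε := fun i => by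
    show S.f (α (lv k hh i)) = h + ε
    rw [hα, f_lv]
  have hBf : ∀ i, S.f (B i) = h' + ε' := fun i => by
    show S.f (β' (lv k hh' i)) = h' + ε'
    rw [hβ', f_lv]
  -- the images in the second tree coincide
  have hf' : ∀ i, (ex k hh').f (α' (A i)) = h + ε + ε' := fun i => by rw [hα', hAf]
  have htr : ∀ i, α' (A i) = trunk k hh' (h + ε + ε') := by
    intro i
    rcases (trunk_or k hh' (α' (A i))).2 with h1 | h1
    · rw [hf'] at h1
      exact h1
    · rw [hf'] at h1
      linarith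
  have hr : ∀ i, S.LReach (A i) (β' (trunk k hh' (h + ε + ε'))) := by
    intro i
    have := reaches_iff_lreach.1 (hβα' (A i)).1
    rwa [htr i] at this
  have hz : S.f (β' (trunk k hh' (h + ε + ε'))) ≤ h' + ε' := by
    rw [hβ', f_trunk k hh' (by linarith)]
    linarith
  have := no_merge hS (by linarith) hA hB hAf hBf (hr 0) (hr 1) hz
  have := congrArg Fin.val this
  simp at this

end Ex

end MTree

namespace MT

open MTree

/-- For `n ≥ 2` there are two classes in `MT_n` at interleaving distance at most `1` and intrinsic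
distance at least `2`. -/
theorem exists_far_pair (n : ℕ) (hn : 2 ≤ n) : ∃ x ∈ MTn n, ∃ y ∈ MTn n,
    dI x y ≤ 1 ∧ 2 ≤ intrinsic n x y := by
  obtain ⟨k, rfl⟩ : ∃ k, n = k + 2 := ⟨n - 2, by omega⟩
  have h0 : (0 : ℝ) ≤ 0 := le_rfl
  have h3 : (0 : ℝ) ≤ 3 := by norm_num
  refine ⟨mk (ex k h0), ⟨_, rfl, leaves_star _ _⟩, mk (ex k h3),
    ⟨_, rfl, leaves_star _ _⟩, ?_, ?_⟩
  · have := iInf₂_le (f := fun (ε : ℝ≥0) (_ : Interleaved ε (ex k h0) (ex k h3)) => (ε : ℝ≥0∞))
      1 (by simpa using interleaved_ex k h0 h3)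
    simp only [ENNReal.coe_one] at this
    exact this
  · have := two_mul_le_intrinsic (n := k + 2) (x := mk (ex k h0))
      (y := mk (ex k h3)) (r := 1) one_pos ?_
    · simpa using this
    · rintro z ⟨S, rfl, hS⟩ ⟨h1, h2⟩
      rw [dI_mk, MTree.dI_comm] at h1
      rw [dI_mk] at h2
      obtain ⟨ε, hε, hI⟩ := exists_of_dI_lt h1
      obtain ⟨ε', hε', hI'⟩ := exists_of_dI_lt h2
      exact not_both k h0 h3 (by norm_num) hS ε.2 (by exact_mod_cast hε) ε'.2
        (by exact_mod_cast hε') hI hI'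

end MT

end Pool.Agent
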