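import Pool.Agent.MergeTree.Graph

/-!
# The glued space and basic properties of merge trees
-/

set_option autoImplicit false

namespace Pool.Agent.MergeTree

open Set Filter Topology

section Glued

variable {V : Type} [Fintype V] {G : SimpleGraph V} {x₀ : Realization G}

lemma continuous_inX : Continuous (inX : Realization G → Glued x₀) :=
  continuous_quot_mk.comp continuous_inl

lemma continuous_inRay : Continuous (inRay : Ico (0 : ℝ) 1 → Glued x₀) :=
  continuous_quot_mk.comp continuous_inr

lemma inX_root : (inX x₀ : Glued x₀) = inRay zeroRay := Quot.sound GlueRel.glue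

lemma cases_pt (p : Glued x₀) : (∃ x, p = inX x) ∨ ∃ s, p = inRay s := by
  induction p using Quot.ind with
  | mk a =>
    rcases a with x | s
    · exact Or.inl ⟨x, rfl⟩
    · exact Or.inr ⟨s, rfl⟩

/-- Coordinates on the glued space. -/
def toProd : Glued x₀ → Realization G × ℝ :=
  Quot.lift (Sum.elim (fun x => (x, 0)) (fun s => (x₀, (s : ℝ)))) (by
    rintro _ _ ⟨⟩
    rfl)

lemma toProd_inX (x : Realization G) : toProd (inX x : Glued x₀) = (x, 0) := rfl

lemma toProd_inRay (s : Ico (0 : ℝ) 1) : toProd (inRay s : Glued x₀) = (x₀, (s : ℝ)) := rfl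

lemma continuous_toProd : Continuous (toProd : Glued x₀ → Realization G × ℝ) := by
  refine continuous_quot_lift _ ?_
  refine Continuous.sumElim ?_ ?_
  · fun_prop
  · fun_prop

lemma inX_injective : Function.Injective (inX : Realization G → Glued x₀) := by
  intro x y h
  have := congrArg toProd h
  rw [toProd_inX, toProd_inX] at this
  exact (Prod.ext_iff.1 this).1

lemma inRay_injective : Function.Injective (inRay : Ico (0 : ℝ) 1 → Glued x₀) := by
  intro x y h
  have := congrArg toProd h
  rw [toProd_inRay, toProd_inRay] at this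
  exact Subtype.ext (Prod.ext_iff.1 this).2

lemma inX_eq_inRay {x : Realization G} {s : Ico (0 : ℝ) 1} (h : (inX x : Glued x₀) = inRay s) :
    x = x₀ ∧ s = zeroRay := by
  have := congrArg toProd h
  rw [toProd_inX, toProd_inRay] at this
  obtain ⟨h1, h2⟩ := Prod.ext_iff.1 this
  exact ⟨h1, Subtype.ext h2.symm⟩

lemma toProd_injective : Function.Injective (toProd : Glued x₀ → Realization G × ℝ) := by
  intro p q h
  rcases cases_pt p with ⟨x, rfl⟩ | ⟨s, rfl⟩ <;> rcases cases_pt q with ⟨y, rfl⟩ | ⟨t, rfl⟩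
  · rw [toProd_inX, toProd_inX] at h
    have h1 : x = y := (Prod.ext_iff.1 h).1
    rw [h1]
  · rw [toProd_inX, toProd_inRay] at h
    obtain ⟨h1, h2⟩ := Prod.ext_iff.1 h
    have h1 : x = x₀ := h1
    have h2 : t = zeroRay := Subtype.ext h2.symm
    rw [h1, h2, inX_root]
  · rw [toProd_inX, toProd_inRay] at h
    obtain ⟨h1, h2⟩ := Prod.ext_iff.1 h
    have h1 : x₀ = y := h1
    have h2 : s = zeroRay := Subtype.ext h2
    rw [← h1, h2, inX_root]
  · rw [toProd_inRay, toProd_inRay] at h
    have : s = t := Subtype.ext (Prod.ext_iff.1 h).2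
    rw [this]

instance : T2Space (Glued x₀) :=
  T2Space.of_injective_continuous toProd_injective continuous_toProd

lemma isOpen_inX_image {U : Set (Realization G)} (hU : IsOpen U) (h0 : x₀ ∉ U) :
    IsOpen (inX '' U : Set (Glued x₀)) := by
  have hiff : IsOpen (inX '' U : Set (Glued x₀)) ↔
      IsOpen (Quot.mk (GlueRel x₀) ⁻¹' (inX '' U)) := Iff.rfl
  rw [hiff, isOpen_sum_iff]
  constructor
  · have : (Sum.inl ⁻¹' (Quot.mk (GlueRel x₀) ⁻¹' (inX '' U)) : Set (Realization G)) = U := by
      ext x
      constructor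
      · rintro ⟨y, hy, hyx⟩
        have : y = x := inX_injective hyx
        rwa [← this]
      · intro hx
        exact ⟨x, hx, rfl⟩
    rw [this]
    exact hU
  · have : (Sum.inr ⁻¹' (Quot.mk (GlueRel x₀) ⁻¹' (inX '' U)) : Set (Ico (0 : ℝ) 1)) = ∅ := by
      rw [eq_empty_iff_forall_notMem]
      rintro s ⟨y, hy, hys⟩
      have := (inX_eq_inRay hys).1
      rw [this] at hy
      exact h0 hy
    rw [this]
    exact isOpen_empty

end Glued

section Dist

variable {V : Type} [Fintype V] [DecidableEq V] {G : SimpleGraph V}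

lemma dist_seg {v u : V} (h : G.Adj v u) {s t : ℝ} (hs : s ∈ Icc (0 : ℝ) 1)
    (ht : t ∈ Icc (0 : ℝ) 1) : dist (seg h s).1 (seg h t).1 = |s - t| := by
  apply le_antisymm
  · rw [dist_pi_le_iff (abs_nonneg _)]
    intro w
    rw [seg_apply h hs, seg_apply h ht, Real.dist_eq]
    split_ifs
    · rw [abs_sub_comm s t]
      apply le_of_eq
      congr 1
      ring
    · exact le_rfl
    · simp
  · have := dist_le_pi_dist (seg h s).1 (seg h t).1 u
    rw [seg_right h hs, seg_right h ht, Real.dist_eq] at this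
    exact this

/-- The two sides of an edge. -/
lemma mass_add_mass (hG : G.IsTree) {v u : V} (h : G.Adj v u) (x : Realization G) :
    mass G v u x + mass G u v x = 1 := by
  classical
  have hswap : (s(u, v) : Sym2 V) = s(v, u) := Sym2.eq_swap
  have hnr : ¬ (G.deleteEdges {s(v, u)}).Reachable v u := by
    have := (SimpleGraph.isAcyclic_iff_forall_adj_isBridge.1 hG.isAcyclic) h
    rwa [SimpleGraph.isBridge_iff] at this
  have hcov : ∀ w, (G.deleteEdges {s(v, u)}).Reachable u w ∨
      (G.deleteEdges {s(v, u)}).Reachable v w := by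
    intro w
    obtain ⟨p⟩ := hG.connected.preconnected w u
    induction p with
    | nil => exact Or.inl (SimpleGraph.Reachable.refl _)
    | @cons a b c' hab p ih =>
      have ih := ih h hswap hnr
      by_cases he : s(a, b) = s(v, c')
      · rw [Sym2.eq_iff] at he
        rcases he with ⟨rfl, -⟩ | ⟨rfl, -⟩
        · exact Or.inr (SimpleGraph.Reachable.refl _)
        · exact Or.inl (SimpleGraph.Reachable.refl _)
      · have hab' : (G.deleteEdges {s(v, c')}).Adj b a := by
          rw [SimpleGraph.deleteEdges_adj]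
          refine ⟨hab.symm, ?_⟩
          rw [Set.mem_singleton_iff, Sym2.eq_swap]
          exact he
        rcases ih with ih | ih
        · exact Or.inl (ih.trans hab'.reachable)
        · exact Or.inr (ih.trans hab'.reachable)
  unfold mass
  rw [← Finset.sum_add_distrib, hswap]
  refine Eq.trans (Finset.sum_congr rfl fun w _ => ?_) x.2.2.1
  rcases hcov w with hw | hw
  · have : ¬ (G.deleteEdges {s(v, u)}).Reachable v w := fun h' => hnr (h'.trans hw.symm)
    rw [if_pos hw, if_neg this, add_zero]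
  · have : ¬ (G.deleteEdges {s(v, u)}).Reachable u w := fun h' => hnr (hw.trans h'.symm)
    rw [if_pos hw, if_neg this, zero_add]

/-- Two points of the realisation of a tree are equal or joined by an arc. -/
lemma arcJoined (hG : G.IsTree) (x y : Realization G) : ArcJoined x y := by
  have hv : ∀ v u : V, ArcJoined (vtx G v) (vtx G u) := by
    intro v u
    obtain ⟨p⟩ := hG.connected.preconnected v u
    induction p with
    | nil => exact Or.inl rfl
    | cons h p ih =>
      refine ArcJoined.trans (Or.inr ⟨seg h, 0, 1, ?_⟩) ih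
      have := isArc_seg h le_rfl one_pos le_rfl
      rwa [seg_zero, seg_one] at this
  have hx : ∀ x : Realization G, ∃ v, ArcJoined x (vtx G v) := by
    intro x
    rcases vtx_or_seg hG.isAcyclic x with ⟨v, rfl⟩ | ⟨v, u, h, t, ht, rfl⟩
    · exact ⟨v, Or.inl rfl⟩
    · refine ⟨u, Or.inr ⟨seg h, t, 1, ?_⟩⟩
      have := isArc_seg h ht.1.le ht.2 le_rfl
      rwa [seg_one] at this
  obtain ⟨v, hv1⟩ := hx x
  obtain ⟨u, hu1⟩ := hx y
  exact (hv1.trans (hv v u)).trans hu1.symm

/-- If the support of `x` is contained in the support of `q ≠ x` then both are on one edge. -/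
lemma star (hG : G.IsAcyclic) {x q : Realization G} (hs : ∀ w, x.1 w ≠ 0 → q.1 w ≠ 0)
    (hne : q ≠ x) : ∃ (v u : V) (h : G.Adj v u) (a τ : ℝ), 0 ≤ a ∧ a < τ ∧ τ < 1 ∧
      x = seg h a ∧ q = seg h τ := by
  rcases vtx_or_seg hG x with ⟨v, rfl⟩ | ⟨v, u, h, t, ht, rfl⟩
  · have hv : q.1 v ≠ 0 := hs v (by simp [vtx])
    have hex : ∃ u, u ≠ v ∧ q.1 u ≠ 0 := by
      by_contra hcon
      push Not at hcon
      apply hne
      apply eq_vtx_of_coord_eq_one
      have h1 := q.2.2.1
      rw [← Finset.add_sum_erase _ _ (Finset.mem_univ v)] at h1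
      have h2 : ∑ w ∈ Finset.univ.erase v, q.1 w = 0 :=
        Finset.sum_eq_zero fun w hw => hcon w (Finset.mem_erase.1 hw).1
      linarith
    obtain ⟨u, huv, hu⟩ := hex
    have hadj := q.2.2.2 v u hv hu (Ne.symm huv)
    obtain ⟨h1, h2⟩ := eq_seg_of_coords hG hadj hv hu
    exact ⟨v, u, hadj, 0, q.1 u, le_rfl, h2.1, h2.2, (seg_zero hadj).symm, h1⟩
  · have htI : t ∈ Icc (0 : ℝ) 1 := ⟨ht.1.le, ht.2.le⟩
    have hv : q.1 v ≠ 0 := hs v (by rw [seg_left h htI]; linarith [ht.2])
    have hu : q.1 u ≠ 0 := hs u (by rw [seg_right h htI]; linarith [ht.1])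
    obtain ⟨h1, h2⟩ := eq_seg_of_coords hG h hv hu
    have hI : q.1 u ∈ Icc (0 : ℝ) 1 := ⟨h2.1.le, h2.2.le⟩
    rcases lt_trichotomy t (q.1 u) with hlt | heq | hgt
    · exact ⟨v, u, h, t, q.1 u, ht.1.le, hlt, h2.2, rfl, h1⟩
    · exfalso
      apply hne
      rw [h1, ← heq]
    · refine ⟨u, v, h.symm, 1 - t, 1 - q.1 u, by linarith [ht.2], by linarith, by linarith [h2.1],
        (seg_symm h htI).symm, ?_⟩
      rw [seg_symm h hI]
      exact h1

end Dist

end Pool.Agent.MergeTree
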