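import Pool.Agent.MergeTree.Defs
import Pool.Agent.MergeTree.Arcs

/-!
# Realisations of finite trees
-/

set_option autoImplicit false

namespace Pool.Agent.MergeTree

open Set Filter Topology

variable {V : Type} [Fintype V] [DecidableEq V] {G : SimpleGraph V}

omit [DecidableEq V] in
lemma Realization.ext {x y : Realization G} (h : x.1 = y.1) : x = y := Subtype.ext h

omit [DecidableEq V] in
lemma continuous_realization_val : Continuous (fun x : Realization G => x.1) :=
  continuous_induced_dom

omit [DecidableEq V] in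
lemma continuous_coord (w : V) : Continuous (fun x : Realization G => x.1 w) :=
  (continuous_apply w).comp continuous_realization_val

instance : T2Space (Realization G) :=
  T2Space.of_injective_continuous (f := fun x : Realization G => x.1)
    (fun _ _ h => Realization.ext h) continuous_realization_val

/-- The parametrised edge from `v` to `u` (constant outside `[0, 1]`). -/
noncomputable def seg {v u : V} (h : G.Adj v u) (t : ℝ) : Realization G :=
  ⟨fun w => if w = v then 1 - (projIcc (0 : ℝ) 1 zero_le_one t : ℝ) else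
      if w = u then (projIcc (0 : ℝ) 1 zero_le_one t : ℝ) else 0, by
    set s : ℝ := (projIcc (0 : ℝ) 1 zero_le_one t : ℝ) with hs
    have hs0 : 0 ≤ s := (projIcc (0 : ℝ) 1 zero_le_one t).2.1
    have hs1 : s ≤ 1 := (projIcc (0 : ℝ) 1 zero_le_one t).2.2
    refine ⟨fun w => ?_, ?_, fun a b ha hb hab => ?_⟩
    · show 0 ≤ (if w = v then 1 - s else if w = u then s else 0)
      split_ifs <;> linarith
    · have hne : u ≠ v := h.ne'
      have : ∀ w, (if w = v then 1 - s else if w = u then s else 0) =
          (if w = v then 1 - s else 0) + (if w = u then s else 0) := by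
        intro w
        by_cases h1 : w = v
        · subst h1
          simp [hne.symm]
        · simp [h1]
      simp only [this, Finset.sum_add_distrib, Finset.sum_ite_eq', Finset.mem_univ, if_true]
      ring
    · have ha' : a = v ∨ a = u := by
        by_contra hcon
        push Not at hcon
        simp [hcon.1, hcon.2] at ha
      have hb' : b = v ∨ b = u := by
        by_contra hcon
        push Not at hcon
        simp [hcon.1, hcon.2] at hb
      rcases ha' with rfl | rfl <;> rcases hb' with rfl | rfl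
      · exact absurd rfl hab
      · exact h
      · exact h.symm
      · exact absurd rfl hab⟩

lemma seg_apply {v u : V} (h : G.Adj v u) {t : ℝ} (ht : t ∈ Icc (0 : ℝ) 1) (w : V) :
    (seg h t).1 w = if w = v then 1 - t else if w = u then t else 0 := by
  simp only [seg, projIcc_of_mem zero_le_one ht]

lemma seg_left {v u : V} (h : G.Adj v u) {t : ℝ} (ht : t ∈ Icc (0 : ℝ) 1) :
    (seg h t).1 v = 1 - t := by
  rw [seg_apply h ht, if_pos rfl]

lemma seg_right {v u : V} (h : G.Adj v u) {t : ℝ} (ht : t ∈ Icc (0 : ℝ) 1) :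
    (seg h t).1 u = t := by
  rw [seg_apply h ht, if_neg h.ne', if_pos rfl]

lemma seg_other {v u : V} (h : G.Adj v u) {t : ℝ} (ht : t ∈ Icc (0 : ℝ) 1) {w : V}
    (h1 : w ≠ v) (h2 : w ≠ u) : (seg h t).1 w = 0 := by
  rw [seg_apply h ht, if_neg h1, if_neg h2]

lemma continuous_seg {v u : V} (h : G.Adj v u) : Continuous (seg h) := by
  refine continuous_induced_rng.2 ?_
  refine continuous_pi fun w => ?_
  show Continuous fun t : ℝ => if w = v then 1 - (projIcc (0 : ℝ) 1 zero_le_one t : ℝ) else
      if w = u then (projIcc (0 : ℝ) 1 zero_le_one t : ℝ) else 0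
  split_ifs <;> fun_prop

lemma seg_zero {v u : V} (h : G.Adj v u) : seg h 0 = vtx G v := by
  apply Realization.ext
  funext w
  rw [seg_apply h (by simp)]
  by_cases hw : w = v
  · subst hw
    simp [vtx]
  · simp [vtx, hw]

lemma seg_one {v u : V} (h : G.Adj v u) : seg h 1 = vtx G u := by
  apply Realization.ext
  funext w
  rw [seg_apply h (by simp)]
  by_cases hw : w = u
  · subst hw
    simp [vtx, h.ne']
  · by_cases hv : w = v
    · subst hv
      simp [vtx, hw]
    · simp [vtx, hw, hv]

lemma seg_symm {v u : V} (h : G.Adj v u) {t : ℝ} (ht : t ∈ Icc (0 : ℝ) 1) :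
    seg h.symm (1 - t) = seg h t := by
  have ht' : 1 - t ∈ Icc (0 : ℝ) 1 := ⟨by linarith [ht.2], by linarith [ht.1]⟩
  apply Realization.ext
  funext w
  rw [seg_apply h ht, seg_apply h.symm ht']
  by_cases hw : w = u
  · subst hw
    simp [h.ne']
  · by_cases hv : w = v
    · subst hv
      simp [hw]
    · simp [hw, hv]

lemma injOn_seg {v u : V} (h : G.Adj v u) : InjOn (seg h) (Icc 0 1) := by
  intro s hs t ht hst
  have := congrArg (fun x : Realization G => x.1 u) hst
  simpa [seg_right h hs, seg_right h ht] using this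

lemma isArc_seg {v u : V} (h : G.Adj v u) {a b : ℝ} (ha : 0 ≤ a) (hab : a < b) (hb : b ≤ 1) :
    IsArc (seg h) a b (seg h a) (seg h b) :=
  ⟨hab, (continuous_seg h).continuousOn, (injOn_seg h).mono (Icc_subset_Icc ha hb), rfl, rfl⟩

omit [DecidableEq V] in
/-- The nonzero coordinates of a point of the realisation. -/
lemma exists_coord_ne_zero (x : Realization G) : ∃ v, x.1 v ≠ 0 := by
  by_contra h
  push Not at h
  have := x.2.2.1
  simp [h] at this

omit [DecidableEq V] in
lemma coord_le_one (x : Realization G) (v : V) : x.1 v ≤ 1 := by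
  have := x.2.2.1
  calc x.1 v ≤ ∑ w, x.1 w := Finset.single_le_sum (fun w _ => x.2.1 w) (Finset.mem_univ v)
    _ = 1 := this

lemma eq_vtx_of_coord_eq_one {x : Realization G} {v : V} (h : x.1 v = 1) : x = vtx G v := by
  apply Realization.ext
  funext w
  by_cases hw : w = v
  · subst hw
    simp [vtx, h]
  · have h1 := x.2.2.1
    rw [← Finset.add_sum_erase _ _ (Finset.mem_univ v), h] at h1
    have h2 : ∑ w ∈ Finset.univ.erase v, x.1 w = 0 := by linarith
    rw [Finset.sum_eq_zero_iff_of_nonneg (fun w _ => x.2.1 w)] at h2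
    simp [vtx, hw, h2 w (Finset.mem_erase.2 ⟨hw, Finset.mem_univ w⟩)]

/-- In an acyclic graph, a point with two different nonzero coordinates is on that edge. -/
lemma eq_seg_of_coords (hG : G.IsAcyclic) {x : Realization G} {v u : V} (h : G.Adj v u)
    (hv : x.1 v ≠ 0) (hu : x.1 u ≠ 0) : x = seg h (x.1 u) ∧ x.1 u ∈ Ioo (0 : ℝ) 1 := by
  have hv0 : 0 < x.1 v := lt_of_le_of_ne (x.2.1 v) (Ne.symm hv)
  have hu0 : 0 < x.1 u := lt_of_le_of_ne (x.2.1 u) (Ne.symm hu)
  have hother : ∀ w, w ≠ v → w ≠ u → x.1 w = 0 := by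
    intro w hwv hwu
    by_contra hw
    have h1 := x.2.2.2 w v hw hv hwv
    have h2 := x.2.2.2 w u hw hu hwu
    have : G.CliqueFree 3 := hG.cliqueFree le_rfl
    refine this {w, v, u} ?_
    rw [SimpleGraph.is3Clique_triple_iff]
    exact ⟨h1, h2, h⟩
  have hsum : x.1 v + x.1 u = 1 := by
    have h1 := x.2.2.1
    rw [← Finset.add_sum_erase _ _ (Finset.mem_univ v),
      ← Finset.add_sum_erase _ _ (Finset.mem_erase.2 ⟨h.ne', Finset.mem_univ u⟩)] at h1
    have h2 : ∑ w ∈ (Finset.univ.erase v).erase u, x.1 w = 0 := by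
      refine Finset.sum_eq_zero fun w hw => ?_
      rw [Finset.mem_erase, Finset.mem_erase] at hw
      exact hother w hw.2.1 hw.1
    rw [h2] at h1
    linarith
  have hI : x.1 u ∈ Ioo (0 : ℝ) 1 := ⟨hu0, by linarith⟩
  refine ⟨?_, hI⟩
  apply Realization.ext
  funext w
  rw [seg_apply h ⟨hI.1.le, hI.2.le⟩]
  by_cases hwv : w = v
  · subst hwv
    rw [if_pos rfl]
    linarith
  · by_cases hwu : w = u
    · subst hwu
      rw [if_neg hwv, if_pos rfl]
    · rw [if_neg hwv, if_neg hwu, hother w hwv hwu]

/-- Every point of the realisation of an acyclic graph is a vertex or in the interior of an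
edge. -/
lemma vtx_or_seg (hG : G.IsAcyclic) (x : Realization G) :
    (∃ v, x = vtx G v) ∨ ∃ (v u : V) (h : G.Adj v u) (t : ℝ), t ∈ Ioo (0 : ℝ) 1 ∧ x = seg h t := by
  obtain ⟨v, hv⟩ := exists_coord_ne_zero x
  by_cases h : ∃ u, u ≠ v ∧ x.1 u ≠ 0
  · obtain ⟨u, huv, hu⟩ := h
    have hadj := x.2.2.2 v u hv hu (Ne.symm huv)
    obtain ⟨h1, h2⟩ := eq_seg_of_coords hG hadj hv hu
    exact Or.inr ⟨v, u, hadj, x.1 u, h2, h1⟩
  · push Not at h
    left
    refine ⟨v, eq_vtx_of_coord_eq_one ?_⟩
    have h1 := x.2.2.1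
    rw [← Finset.add_sum_erase _ _ (Finset.mem_univ v)] at h1
    have h2 : ∑ w ∈ Finset.univ.erase v, x.1 w = 0 := by
      refine Finset.sum_eq_zero fun w hw => ?_
      exact h w (Finset.mem_erase.1 hw).1
    linarith

open Classical in
/-- The mass of a point on the side of `u` of the edge `v u`. -/
noncomputable def mass (G : SimpleGraph V) (v u : V) (x : Realization G) : ℝ :=
  ∑ w, if (G.deleteEdges {s(v, u)}).Reachable u w then x.1 w else 0

lemma continuous_mass (v u : V) : Continuous (mass G v u) := by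
  unfold mass
  refine continuous_finsetSum _ fun w _ => ?_
  split_ifs
  · exact continuous_coord w
  · exact continuous_const

lemma mass_seg (hG : G.IsAcyclic) {v u : V} (h : G.Adj v u) {t : ℝ} (ht : t ∈ Icc (0 : ℝ) 1) :
    mass G v u (seg h t) = t := by
  classical
  have hnr : ¬ (G.deleteEdges {s(v, u)}).Reachable u v := by
    intro hr
    have := (SimpleGraph.isAcyclic_iff_forall_adj_isBridge.1 hG) h
    rw [SimpleGraph.isBridge_iff] at this
    exact this hr.symm
  unfold mass
  rw [Finset.sum_eq_single u]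
  · rw [if_pos (SimpleGraph.Reachable.refl u), seg_right h ht]
  · intro w _ hwu
    by_cases hwv : w = v
    · subst hwv
      rw [if_neg hnr]
    · rw [seg_other h ht hwv hwu, ite_self]
  · intro hu
    exact absurd (Finset.mem_univ u) hu

/-- If the mass of a point on one side of an edge is strictly between `0` and `1` then the point
is on that edge. -/
lemma eq_seg_of_mass (hG : G.IsAcyclic) {v u : V} (h : G.Adj v u) {x : Realization G}
    (hx : mass G v u x ∈ Ioo (0 : ℝ) 1) : x = seg h (mass G v u x) := by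
  classical
  -- a vertex on the side of `u` in the support
  have h1 : ∃ w, (G.deleteEdges {s(v, u)}).Reachable u w ∧ x.1 w ≠ 0 := by
    by_contra hcon
    push Not at hcon
    have : mass G v u x = 0 := by
      unfold mass
      refine Finset.sum_eq_zero fun w _ => ?_
      split_ifs with hw
      · exact hcon w hw
      · rfl
    rw [this] at hx
    exact lt_irrefl _ hx.1
  have h2 : ∃ w, ¬ (G.deleteEdges {s(v, u)}).Reachable u w ∧ x.1 w ≠ 0 := by
    by_contra hcon
    push Not at hcon
    have : mass G v u x = 1 := by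
      rw [← x.2.2.1]
      unfold mass
      refine Finset.sum_congr rfl fun w _ => ?_
      split_ifs with hw
      · rfl
      · exact (hcon w hw).symm
    rw [this] at hx
    exact lt_irrefl _ hx.2
  obtain ⟨w, hw, hxw⟩ := h1
  obtain ⟨w', hw', hxw'⟩ := h2
  have hne : w ≠ w' := by
    rintro rfl
    exact hw' hw
  have hadj := x.2.2.2 w w' hxw hxw' hne
  have hedge : s(w, w') = s(v, u) := by
    by_contra hne'
    apply hw'
    refine hw.trans (SimpleGraph.Adj.reachable ?_)
    rw [SimpleGraph.deleteEdges_adj]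
    exact ⟨hadj, by simpa using hne'⟩
  have hwu : w = u ∧ w' = v := by
    rw [Sym2.eq_iff] at hedge
    rcases hedge with ⟨rfl, rfl⟩ | ⟨rfl, rfl⟩
    · exact absurd (SimpleGraph.Reachable.refl _) hw'
    · exact ⟨rfl, rfl⟩
  obtain ⟨rfl, rfl⟩ := hwu
  obtain ⟨h3, h4⟩ := eq_seg_of_coords hG h hxw' hxw
  have h5 : mass G w' w x = x.1 w := by
    conv_lhs => rw [h3]
    exact mass_seg hG h ⟨h4.1.le, h4.2.le⟩
  rw [h5]
  exact h3

lemma mass_mem (v u : V) (x : Realization G) : mass G v u x ∈ Icc (0 : ℝ) 1 := by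
  classical
  unfold mass
  constructor
  · refine Finset.sum_nonneg fun w _ => ?_
    split_ifs
    · exact x.2.1 w
    · exact le_rfl
  · refine le_trans (Finset.sum_le_sum (g := fun w => x.1 w) fun w _ => ?_) x.2.2.1.le
    split_ifs
    · exact le_rfl
    · exact x.2.1 w

/-- An injective path starting at the point `seg h a` (`0 ≤ a < 1`) which meets the side of `u`
stays there. -/
lemma IsArc.mass_gt (hG : G.IsAcyclic) {v u : V} (h : G.Adj v u) {a : ℝ} (ha : a ∈ Ico (0 : ℝ) 1)
    {c : ℝ → Realization G} {α β : ℝ} {y : Realization G} (hc : IsArc c α β (seg h a) y)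
    {s s' : ℝ} (hs : s ∈ Ioc α β) (hs' : s' ∈ Ioc α β) (hm : a < mass G v u (c s)) :
    a < mass G v u (c s') := by
  by_contra hcon
  push Not at hcon
  have hJ : uIcc s' s ⊆ Ioc α β := by
    intro r hr
    rw [mem_uIcc] at hr
    rcases hr with hr | hr
    · exact ⟨hs'.1.trans_le hr.1, hr.2.trans hs.2⟩
    · exact ⟨hs.1.trans_le hr.1, hr.2.trans hs'.2⟩
  have hcJ : ContinuousOn c (uIcc s' s) := hc.cont.mono (hJ.trans Ioc_subset_Icc_self)
  have hcomp : IsCompact (c '' uIcc s' s) := isCompact_uIcc.image_of_continuousOn hcJ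
  -- all points of the edge slightly above `a` are on the path
  have hmem : ∀ τ ∈ Ioo a (min (mass G v u (c s)) 1), seg h τ ∈ c '' uIcc s' s := by
    intro τ hτ
    have hcm : ContinuousOn (fun r => mass G v u (c r)) (uIcc s' s) :=
      (continuous_mass v u).comp_continuousOn hcJ
    have hsub := intermediate_value_uIcc hcm
    have : τ ∈ uIcc (mass G v u (c s')) (mass G v u (c s)) := by
      rw [mem_uIcc]
      left
      exact ⟨hcon.trans hτ.1.le, (hτ.2.trans_le (min_le_left _ _)).le⟩
    obtain ⟨r, hr, hrτ⟩ := hsub this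
    refine ⟨r, hr, ?_⟩
    have hrτ' : mass G v u (c r) = τ := hrτ
    have := eq_seg_of_mass hG h (x := c r) (by
      rw [hrτ']
      exact ⟨ha.1.trans_lt hτ.1, hτ.2.trans_le (min_le_right _ _)⟩)
    rw [this, hrτ']
  have hlt : a < min (mass G v u (c s)) 1 := lt_min hm ha.2
  have hlim : seg h a ∈ c '' uIcc s' s := by
    have hcl : IsClosed (c '' uIcc s' s) := hcomp.isClosed
    have ht : Tendsto (seg h) (𝓝[>] a) (𝓝 (seg h a)) :=
      ((continuous_seg h).tendsto a).mono_left nhdsWithin_le_nhds
    refine hcl.mem_of_tendsto ht ?_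
    filter_upwards [Ioo_mem_nhdsGT hlt] with τ hτ using hmem τ hτ
  obtain ⟨r, hr, hra⟩ := hlim
  have hr' := hJ hr
  have := hc.inj ⟨hr'.1.le, hr'.2⟩ (left_mem_Icc.2 hc.lt.le) (by rw [hra, hc.left])
  exact absurd this hr'.1.ne'

end Pool.Agent.MergeTree
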