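import Pool.Agent.MergeTree.Theory

/-!
# Every point of a merge tree lies above a leaf; consequences
-/

set_option autoImplicit false

namespace Pool.Agent

open Set Filter Topology Pool.Agent.MergeTree

namespace MTree

variable {T : MTree}

/-- Every point lies above a vertex. -/
lemma exists_vertex_below (y : T.Pt) : ∃ w, T.LReach (inX (vtx T.G w)) y := by
  have hX : ∀ p : Realization T.G, ∃ w, T.LReach (inX (vtx T.G w)) (inX p) := by
    intro p
    rcases vtx_or_seg T.isTree.isAcyclic p with ⟨v, rfl⟩ | ⟨v, u, h, t, ht, rfl⟩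
    · exact ⟨v, LReach.refl _⟩
    · by_cases hm : mass T.G v u T.x₀ ≤ t
      · refine ⟨u, ?_⟩
        have := (down h ht.1.le ht.2 le_rfl hm).1
        rwa [seg_one] at this
      · refine ⟨v, ?_⟩
        have h2 := mass_add_mass T.isTree h T.x₀
        have := (down h.symm (a := 1 - t) (τ := 1) (by linarith [ht.2]) (by linarith [ht.1]) le_rfl
          (by linarith)).1
        rwa [seg_one, seg_symm h ⟨ht.1.le, ht.2.le⟩] at this
  rcases cases_pt y with ⟨p, rfl⟩ | ⟨s, rfl⟩
  · exact hX p
  · obtain ⟨w, hw⟩ := hX T.x₀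
    refine ⟨w, ?_⟩
    obtain ⟨z, hz, hzf⟩ := exists_lreach (inX T.x₀ : T.Pt) (f_root_le_ray s)
    obtain ⟨s', rfl⟩ := exists_ray (p := z) (by rw [hzf]; exact f_root_le_ray s)
    have : s' = s := T.strictMono_ray.injective hzf
    subst this
    exact hw.trans hz

/-- Every point lies above a leaf, if the tree has an edge. -/
lemma exists_leaf_below (hm : ∃ v u, T.G.Adj v u) (y : T.Pt) :
    ∃ w ∈ T.leaves, T.LReach (inX (vtx T.G w)) y := by
  classical
  obtain ⟨w₀, hw₀⟩ := exists_vertex_below y
  let S : Finset (Fin T.m) := Finset.univ.filter fun w => T.LReach (inX (vtx T.G w)) y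
  have hS : S.Nonempty := ⟨w₀, by simpa [S] using hw₀⟩
  obtain ⟨w, hwS, hmin⟩ := S.exists_min_image (fun w => T.f (inX (vtx T.G w))) hS
  have hw : T.LReach (inX (vtx T.G w)) y := by simpa [S] using hwS
  have hpos : ∀ u, T.G.Adj w u → 0 < mass T.G w u T.x₀ := by
    intro u hu
    by_contra hcon
    push Not at hcon
    obtain ⟨h1, h2⟩ := down hu le_rfl one_pos le_rfl hcon
    rw [seg_zero, seg_one] at h1 h2
    have huS : u ∈ S := by simpa [S] using h1.trans hw
    exact absurd (hmin u huS) (not_le.2 h2)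
  have hnb : ∃ u, T.G.Adj w u := by
    obtain ⟨v, u, hvu⟩ := hm
    by_cases hwv : w = v
    · exact ⟨u, by rw [hwv]; exact hvu⟩
    · obtain ⟨p⟩ := T.isTree.connected.preconnected w v
      cases p with
      | nil => exact absurd rfl hwv
      | cons h _ => exact ⟨_, h⟩
  obtain ⟨u, hu⟩ := hnb
  have hroot : vtx T.G w ≠ T.x₀ := by
    intro h
    have := hpos u hu
    rw [← h, ← seg_zero hu, mass_seg T.isTree.isAcyclic hu (by simp)] at this
    exact lt_irrefl _ this
  refine ⟨w, ⟨?_, hroot⟩, hw⟩
  rw [Set.ncard_eq_one]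
  refine ⟨u, ?_⟩
  ext u'
  simp only [SimpleGraph.mem_neighborSet, mem_singleton_iff]
  constructor
  · intro hu'
    by_contra hne
    obtain ⟨c, α, β, hc⟩ := (arcJoined T.isTree (vtx T.G w) T.x₀).resolve_left hroot
    have hG := T.isTree.isAcyclic
    have hαc : ∀ u (hu : T.G.Adj w u), ∀ᶠ s in 𝓝[>] α, mass T.G w u (c s) < 1 := by
      intro u hu
      have hcont : ContinuousWithinAt (fun s => mass T.G w u (c s)) (Icc α β) α :=
        ((continuous_mass w u).comp_continuousOn hc.cont) α (left_mem_Icc.2 hc.lt.le)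
      have h0 : mass T.G w u (c α) = 0 := by
        rw [hc.left, ← seg_zero hu, mass_seg hG hu (by simp)]
      have h1 : ∀ᶠ s in 𝓝[Icc α β] α, mass T.G w u (c s) < 1 := by
        refine hcont.eventually_lt continuousWithinAt_const ?_
        show mass T.G w u (c α) < 1
        rw [h0]
        exact one_pos
      have hle : 𝓝[>] α ≤ 𝓝[Icc α β] α := by
        rw [nhdsWithin, nhdsWithin, le_inf_iff]
        exact ⟨inf_le_left, by rw [le_principal_iff]; exact Icc_mem_nhdsGT hc.lt⟩
      exact hle h1
    obtain ⟨s, ⟨hs1, hs2⟩, hs3⟩ := (((hαc u hu).and (hαc u' hu')).and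
      (Ioc_mem_nhdsGT hc.lt)).exists
    have hβ : β ∈ Ioc α β := ⟨hc.lt, le_rfl⟩
    have hm1 : 0 < mass T.G w u (c s) := by
      have hc' := hc
      rw [← seg_zero hu] at hc'
      exact hc'.mass_gt hG hu (by simp) hβ hs3 (by rw [hc.right]; exact hpos u hu)
    have hm2 : 0 < mass T.G w u' (c s) := by
      have hc' := hc
      rw [← seg_zero hu'] at hc'
      exact hc'.mass_gt hG hu' (by simp) hβ hs3 (by rw [hc.right]; exact hpos u' hu')
    have e1 := eq_seg_of_mass hG hu (x := c s) ⟨hm1, hs1⟩
    have e2 := eq_seg_of_mass hG hu' (x := c s) ⟨hm2, hs2⟩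
    have h3 : (c s).1 u' = mass T.G w u' (c s) := by
      conv_lhs => rw [e2]
      exact seg_right hu' ⟨hm2.le, hs2.le⟩
    have h4 : (c s).1 u' = 0 := by
      rw [e1]
      exact seg_other hu ⟨hm1.le, hs1.le⟩ hu'.ne' hne
    linarith
  · rintro rfl
    exact hu

/-- If the tree has no edge, then all points are on the ray. -/
lemma eq_of_no_edge (hm : ¬ ∃ v u, T.G.Adj v u) {x y : T.Pt} (h : T.f x = T.f y) : x = y := by
  have hX : ∀ p : Realization T.G, p = T.x₀ := by
    have hv : ∀ p : Realization T.G, ∃ v, p = vtx T.G v := by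
      intro p
      rcases vtx_or_seg T.isTree.isAcyclic p with h | ⟨v, u, h, -⟩
      · exact h
      · exact absurd ⟨v, u, h⟩ hm
    intro p
    obtain ⟨v, rfl⟩ := hv p
    obtain ⟨u, hu⟩ := hv T.x₀
    rw [hu]
    obtain ⟨p⟩ := T.isTree.connected.preconnected v u
    cases p with
    | nil => rfl
    | cons h _ => exact absurd ⟨_, _, h⟩ hm
  have hr : ∀ p : T.Pt, ∃ s, p = inRay s := by
    intro p
    rcases cases_pt p with ⟨x, rfl⟩ | h
    · rw [hX x]
      exact ⟨zeroRay, inX_root⟩
    · exact h
  obtain ⟨s, rfl⟩ := hr x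
  obtain ⟨t, rfl⟩ := hr y
  rw [T.strictMono_ray.injective h]

/-- In a merge tree with at most `n` leaves, if there are `n` points at level `h₁` and `n` points
at level `h₂ ≥ h₁`, then different points of level `h₁` (from the given ones) do not merge
up to level `h₂`. -/
lemma no_merge {n : ℕ} (hT : T.leaves.ncard ≤ n) {h₁ h₂ : ℝ} (h12 : h₁ ≤ h₂)
    {A B : Fin n → T.Pt} (hA : Function.Injective A) (hB : Function.Injective B)
    (hAf : ∀ i, T.f (A i) = h₁) (hBf : ∀ i, T.f (B i) = h₂) {i j : Fin n} {z : T.Pt}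
    (hi : T.LReach (A i) z) (hj : T.LReach (A j) z) (hz : T.f z ≤ h₂) : i = j := by
  by_cases hm : ∃ v u, T.G.Adj v u
  · choose lA hlA hlA' using fun i => exists_leaf_below hm (A i)
    choose lB hlB hlB' using fun i => exists_leaf_below hm (B i)
    have hinjA : Function.Injective lA := by
      intro a b hab
      apply hA
      have h1 := hlA' a
      rw [hab] at h1
      exact h1.unique (hlA' b) (by rw [hAf, hAf])
    have hsurjA : ∀ w ∈ T.leaves, ∃ a, lA a = w := by
      have hfin : T.leaves.Finite := Set.toFinite _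
      have hsub : range lA ⊆ T.leaves := by
        rintro _ ⟨a, rfl⟩
        exact hlA a
      have hcard : (range lA).ncard = n := by
        rw [← Set.image_univ, Set.ncard_image_of_injective _ hinjA, Set.ncard_univ]
        simp
      have heq : range lA = T.leaves :=
        Set.eq_of_subset_of_ncard_le hsub (by rw [hcard]; exact hT) hfin
      intro w hw
      rw [← heq] at hw
      exact hw
    choose σ hσ using fun b => hsurjA (lB b) (hlB b)
    have hσB : ∀ b, T.LReach (A (σ b)) (B b) := by
      intro b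
      have h1 := hlB' b
      rw [← hσ b] at h1
      exact (hlA' (σ b)).of_le h1 (by rw [hAf, hBf]; exact h12)
    have hσinj : Function.Injective σ := by
      intro a b hab
      apply hB
      have h1 := hσB a
      rw [hab] at h1
      exact h1.unique (hσB b) (by rw [hBf, hBf])
    have hσsurj : Function.Surjective σ := Finite.injective_iff_surjective.1 hσinj
    obtain ⟨a, rfl⟩ := hσsurj i
    obtain ⟨b, rfl⟩ := hσsurj j
    obtain ⟨z', hz', hzf'⟩ := exists_lreach z hz
    have h1 : B a = z' := (hσB a).unique (hi.trans hz') (by rw [hBf, hzf'])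
    have h2 : B b = z' := (hσB b).unique (hj.trans hz') (by rw [hBf, hzf'])
    rw [hB (h1.trans h2.symm)]
  · apply hA
    exact eq_of_no_edge hm (by rw [hAf, hAf])

/-- A continuous map shifting the height by a constant preserves reachability. -/
lemma LReach.map {S T : MTree} {ε : ℝ} {α : S.Pt → T.Pt} (hα : Continuous α)
    (hf : ∀ x, T.f (α x) = S.f x + ε) {x y : S.Pt} (h : S.LReach x y) :
    T.LReach (α x) (α y) := by
  obtain ⟨hxy, g, hg, hgx, hgy, hgf⟩ := h
  have hc : ContinuousOn (fun t => α (g t)) (Icc (S.f x) (S.f y)) := hα.comp_continuousOn hg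
  have hm : StrictMonoOn (fun t => T.f (α (g t))) (Icc (S.f x) (S.f y)) := by
    intro s hs t ht hst
    simp only [hf, hgf s hs, hgf t ht]
    linarith
  have := lreach_of_strictMonoOn hxy hc hm
  simpa [hgx, hgy] using this

end MTree

end Pool.Agent
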