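import Pool.Agent.MergeTree.Example

/-!
# Merge trees with at most one leaf
-/

set_option autoImplicit false

namespace Pool.Agent

open Set Filter Topology Pool.Agent.MergeTree

open scoped ENNReal NNReal

namespace MTree

variable {T : MTree}

/-- `p₀` is below every point. -/
def IsBot (T : MTree) (p₀ : T.Pt) : Prop := ∀ y, T.LReach p₀ y

lemma exists_isBot (hT : T.leaves.ncard ≤ 1) : ∃ p₀, T.IsBot p₀ := by
  by_cases hm : ∃ v u, T.G.Adj v u
  · obtain ⟨w, hw, -⟩ := exists_leaf_below hm (inX T.x₀)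
    refine ⟨inX (vtx T.G w), fun y => ?_⟩
    obtain ⟨w', hw', hy⟩ := exists_leaf_below hm y
    have : w' = w := (Set.ncard_le_one (Set.toFinite _)).1 hT w' hw' w hw
    rwa [this] at hy
  · refine ⟨inX T.x₀, fun y => ?_⟩
    have hle : T.f (inX T.x₀) ≤ T.f y := by
      rcases cases_pt y with ⟨x, rfl⟩ | ⟨s, rfl⟩
      · by_contra hcon
        push Not at hcon
        have hx : x ≠ T.x₀ := by
          rintro rfl
          exact lt_irrefl _ hcon
        -- `x` is above a vertex, and all vertices are equal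
        have hv : ∀ p : Realization T.G, ∃ v, p = vtx T.G v := by
          intro p
          rcases vtx_or_seg T.isTree.isAcyclic p with h | ⟨v, u, h, -⟩
          · exact h
          · exact absurd ⟨v, u, h⟩ hm
        obtain ⟨v, hv1⟩ := hv x
        obtain ⟨u, hu1⟩ := hv T.x₀
        apply hx
        rw [hv1, hu1]
        obtain ⟨p⟩ := T.isTree.connected.preconnected v u
        cases p with
        | nil => rfl
        | cons h _ => exact absurd ⟨_, _, h⟩ hm
      · exact f_root_le_ray s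
    obtain ⟨z, hz, hzf⟩ := exists_lreach (inX T.x₀ : T.Pt) hle
    rwa [eq_of_no_edge hm hzf] at hz

open Classical in
/-- The point at height `l` above `p₀`. -/
noncomputable def sec (T : MTree) (p₀ : T.Pt) (l : ℝ) : T.Pt :=
  if h : T.f p₀ ≤ l then (exists_lreach p₀ h).choose else p₀

lemma sec_spec {p₀ : T.Pt} {l : ℝ} (h : T.f p₀ ≤ l) :
    T.LReach p₀ (T.sec p₀ l) ∧ T.f (T.sec p₀ l) = l := by
  unfold sec
  rw [dif_pos h]
  exact (exists_lreach p₀ h).choose_spec

lemma continuousOn_sec (p₀ : T.Pt) : ContinuousOn (T.sec p₀) (Ici (T.f p₀)) := by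
  intro l hl
  have hl' : T.f p₀ ≤ l := hl
  have hl1 : T.f p₀ ≤ l + 1 := by linarith
  obtain ⟨⟨_, g, hg, hg0, hg1, hgf⟩, hf1⟩ := sec_spec hl1
  rw [hf1] at hg hg1 hgf
  have heq : ∀ r ∈ Icc (T.f p₀) (l + 1), T.sec p₀ r = g r := by
    intro r hr
    obtain ⟨h2, h3⟩ := sec_spec hr.1
    refine h2.unique ⟨by rw [hgf r hr]; exact hr.1, g, ?_, hg0, by rw [hgf r hr], ?_⟩
      (by rw [h3, hgf r hr])
    · rw [hgf r hr]
      exact hg.mono (Icc_subset_Icc le_rfl hr.2)
    · rw [hgf r hr]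
      exact fun t ht => hgf t ⟨ht.1, ht.2.trans hr.2⟩
  have hlI : l ∈ Icc (T.f p₀) (l + 1) := ⟨hl', by linarith⟩
  have hcont : ContinuousWithinAt (T.sec p₀) (Icc (T.f p₀) (l + 1)) l :=
    (hg l hlI).congr heq (heq l hlI)
  refine hcont.mono_of_mem_nhdsWithin ?_
  have h1 : Iio (l + 1) ∈ 𝓝 l := Iio_mem_nhds (by linarith)
  have h1' : Iio (l + 1) ∈ 𝓝[Ici (T.f p₀)] l := mem_nhdsWithin_of_mem_nhds h1
  have h2 := inter_mem h1' self_mem_nhdsWithin
  refine mem_of_superset h2 ?_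
  rintro r ⟨hr1, hr2⟩
  exact ⟨hr2, le_of_lt hr1⟩

lemma IsBot.eq_sec {p₀ : T.Pt} (h : T.IsBot p₀) (x : T.Pt) : x = T.sec p₀ (T.f x) := by
  have h1 := sec_spec (h x).1
  exact (h x).unique h1.1 h1.2.symm

/-- Trees with a lowest point are at distance the difference of the heights. -/
lemma IsBot.interleaved {S T : MTree} {p₀ : S.Pt} {q₀ : T.Pt} (hS : S.IsBot p₀)
    (hT : T.IsBot q₀) {ε : ℝ} (hε : |S.f p₀ - T.f q₀| ≤ ε) : Interleaved ε S T := by
  have h1 := abs_le.1 hε
  have hε0 : 0 ≤ ε := (abs_nonneg _).trans hε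
  have hx : ∀ x, T.f q₀ ≤ S.f x + ε := fun x => by linarith [(hS x).1]
  have hy : ∀ y, S.f p₀ ≤ T.f y + ε := fun y => by linarith [(hT y).1]
  refine ⟨⟨fun x => T.sec q₀ (S.f x + ε), ?_⟩, ⟨fun y => S.sec p₀ (T.f y + ε), ?_⟩, ?_, ?_, ?_, ?_⟩
  · exact (continuousOn_sec q₀).comp_continuous (S.continuous_f.add continuous_const) hx
  · exact (continuousOn_sec p₀).comp_continuous (T.continuous_f.add continuous_const) hy
  · intro x
    exact (sec_spec (hx x)).2
  · intro y
    exact (sec_spec (hy y)).2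
  · intro x
    have h2 := sec_spec (hx x)
    have h3 := sec_spec (hy (T.sec q₀ (S.f x + ε)))
    have h4 : S.LReach x (S.sec p₀ (T.f (T.sec q₀ (S.f x + ε)) + ε)) :=
      (hS x).of_le h3.1 (by rw [h3.2, h2.2]; linarith)
    refine ⟨reaches_iff_lreach.2 h4, ?_⟩
    · show S.f (S.sec p₀ (T.f (T.sec q₀ (S.f x + ε)) + ε)) = _
      rw [h3.2, h2.2]
      ring
  · intro y
    have h2 := sec_spec (hy y)
    have h3 := sec_spec (hx (S.sec p₀ (T.f y + ε)))
    have h4 : T.LReach y (T.sec q₀ (S.f (S.sec p₀ (T.f y + ε)) + ε)) :=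
      (hT y).of_le h3.1 (by rw [h3.2, h2.2]; linarith)
    refine ⟨reaches_iff_lreach.2 h4, ?_⟩
    · show T.f (T.sec q₀ (S.f (S.sec p₀ (T.f y + ε)) + ε)) = _
      rw [h3.2, h2.2]
      ring

lemma IsBot.le_of_interleaved {S T : MTree} {p₀ : S.Pt} {q₀ : T.Pt} (hS : S.IsBot p₀)
    (hT : T.IsBot q₀) {ε : ℝ} (h : Interleaved ε S T) : |S.f p₀ - T.f q₀| ≤ ε := by
  obtain ⟨α, β, hα, hβ, -, -⟩ := h
  have h1 := (hT (α p₀)).1
  have h2 := (hS (β q₀)).1
  rw [hα] at h1
  rw [hβ] at h2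
  rw [abs_le]
  constructor <;> linarith

lemma IsBot.dI_eq {S T : MTree} {p₀ : S.Pt} {q₀ : T.Pt} (hS : S.IsBot p₀)
    (hT : T.IsBot q₀) : dI S T = ENNReal.ofReal |S.f p₀ - T.f q₀| := by
  apply le_antisymm
  · have hI : Interleaved ((Real.toNNReal |S.f p₀ - T.f q₀| : ℝ≥0) : ℝ) S T := by
      rw [Real.coe_toNNReal _ (abs_nonneg _)]
      exact hS.interleaved hT le_rfl
    exact iInf₂_le (f := fun (ε : ℝ≥0) (_ : Interleaved ε S T) => (ε : ℝ≥0∞)) _ hI
  · unfold dI
    refine le_iInf fun ε => le_iInf fun h => ?_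
    have := hS.le_of_interleaved hT h
    rw [← ENNReal.ofReal_coe_nnreal]
    exact ENNReal.ofReal_le_ofReal this

/-- Trees with a lowest point at the same height are isomorphic. -/
lemma IsBot.iso {S T : MTree} {p₀ : S.Pt} {q₀ : T.Pt} (hS : S.IsBot p₀)
    (hT : T.IsBot q₀) (h : S.f p₀ = T.f q₀) : Iso S T := by
  have hx : ∀ x, T.f q₀ ≤ S.f x := fun x => by rw [← h]; exact (hS x).1
  have hy : ∀ y, S.f p₀ ≤ T.f y := fun y => by rw [h]; exact (hT y).1
  refine ⟨⟨⟨fun x => T.sec q₀ (S.f x), fun y => S.sec p₀ (T.f y), ?_, ?_⟩, ?_, ?_⟩, ?_⟩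
  · intro x
    show S.sec p₀ (T.f (T.sec q₀ (S.f x))) = x
    rw [(sec_spec (hx x)).2]
    exact (hS.eq_sec x).symm
  · intro y
    show T.sec q₀ (S.f (S.sec p₀ (T.f y))) = y
    rw [(sec_spec (hy y)).2]
    exact (hT.eq_sec y).symm
  · exact (continuousOn_sec q₀).comp_continuous S.continuous_f hx
  · exact (continuousOn_sec p₀).comp_continuous T.continuous_f hy
  · intro x
    exact (sec_spec (hx x)).2

/-- The half-line starting at height `a`. -/
@[reducible] noncomputable def halfLine (a : ℝ) : MTree :=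
  star 0 (fun _ => a) (fun v hv => absurd (Fin.eq_zero v) hv)

lemma halfLine_isBot (a : ℝ) : ∃ p₀, (halfLine a).IsBot p₀ ∧ (halfLine a).f p₀ = a := by
  obtain ⟨p₀, hp₀⟩ := exists_isBot (T := halfLine a) ((leaves_star _ _).trans (Nat.zero_le 1))
  refine ⟨p₀, hp₀, le_antisymm ?_ ?_⟩
  · have h1 := (hp₀ (inRay zeroRay)).1
    have h2 : (halfLine a).f (inRay zeroRay) = a := by
      show starF 0 (fun _ => a) (inRay zeroRay) = a
      rw [starF_inRay]
      simp [zeroRay]
    rw [h2] at h1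
    exact h1
  · rcases cases_pt p₀ with ⟨x, rfl⟩ | ⟨s, rfl⟩
    · show a ≤ starF 0 (fun _ => a) (inX x)
      rw [starF_inX, ← Finset.sum_mul, x.2.2.1, one_mul]
    · show a ≤ starF 0 (fun _ => a) (inRay s)
      rw [starF_inRay]
      have : 0 ≤ (s : ℝ) / (1 - s) := div_nonneg s.2.1 (by linarith [s.2.2])
      linarith

lemma dI_halfLine (a b : ℝ) : dI (halfLine a) (halfLine b) = ENNReal.ofReal |a - b| := by
  obtain ⟨p₀, hp, hpa⟩ := halfLine_isBot a
  obtain ⟨q₀, hq, hqb⟩ := halfLine_isBot b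
  rw [hp.dI_eq hq, hpa, hqb]

end MTree

namespace MT

open MTree

lemma sum_telescope {k : ℕ} (g : Fin (k + 1) → ℝ) :
    ∑ i : Fin k, (g i.succ - g i.castSucc) = g (Fin.last k) - g 0 := by
  induction k with
  | zero => simp
  | succ k ih =>
    rw [Fin.sum_univ_castSucc]
    have := ih (fun i => g i.castSucc)
    simp only [← Fin.succ_castSucc] at this ⊢
    rw [this]
    simp

/-- For `n = 1` the intrinsic metric is the interleaving distance. -/
theorem intrinsic_one {x y : MT} (hx : x ∈ MTn 1) (hy : y ∈ MTn 1) :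
    intrinsic 1 x y = dI x y := by
  apply le_antisymm _ (dI_le_intrinsic 1 x y)
  obtain ⟨S, rfl, hS⟩ := hx
  obtain ⟨T, rfl, hT⟩ := hy
  obtain ⟨p, hp⟩ := exists_isBot hS
  obtain ⟨q, hq⟩ := exists_isBot hT
  set a := S.f p with ha
  set b := T.f q with hb
  have hD : ∀ s t : unitInterval, |(a + s * (b - a)) - (a + t * (b - a))| =
      |(s : ℝ) - t| * |b - a| := by
    intro s t
    rw [← abs_mul]
    congr 1
    ring
  have hdist : ∀ s t : unitInterval,
      dI (mk (halfLine (a + s * (b - a))))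
        (mk (halfLine (a + t * (b - a)))) =
      ENNReal.ofReal (|(s : ℝ) - t| * |b - a|) := by
    intro s t
    rw [dI_mk, dI_halfLine, hD]
  have hxy : dI (mk S) (mk T) =
      ENNReal.ofReal |b - a| := by
    rw [dI_mk, hp.dI_eq hq, abs_sub_comm]
  rw [hxy]
  unfold intrinsic
  refine iInf₂_le_of_le (fun t : unitInterval =>
    mk (halfLine (a + t * (b - a)))) ⟨?_, ?_, ?_, ?_⟩ ?_
  · intro t ε hε
    by_cases htop : ε = ⊤
    · refine ⟨1, one_pos, fun s _ => ?_⟩
      show dI (mk _) (mk _) < ε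
      rw [hdist, htop]
      exact ENNReal.ofReal_lt_top
    · have hpos : 0 < ε.toReal := ENNReal.toReal_pos hε.ne' htop
      refine ⟨ε.toReal / (|b - a| + 1), by positivity, fun s hs => ?_⟩
      show dI (mk _) (mk _) < ε
      rw [hdist, ← ENNReal.ofReal_toReal htop]
      rw [ENNReal.ofReal_lt_ofReal_iff hpos]
      rw [lt_div_iff₀ (by positivity)] at hs
      have h1 : 0 ≤ |(s : ℝ) - t| := abs_nonneg _
      rcases h1.eq_or_lt with h2 | h2
      · rw [← h2, zero_mul]
        exact hpos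
      · nlinarith
  · apply Quotient.sound
    obtain ⟨r, hr, hra⟩ := halfLine_isBot (a + ((0 : unitInterval) : ℝ) * (b - a))
    refine hr.iso hp ?_
    rw [hra]
    simp [ha]
  · apply Quotient.sound
    obtain ⟨r, hr, hra⟩ := halfLine_isBot (a + ((1 : unitInterval) : ℝ) * (b - a))
    refine hr.iso hq ?_
    rw [hra]
    simp [hb]
  · intro t
    exact ⟨_, rfl, (leaves_star _ _).trans (Nat.zero_le 1)⟩
  · unfold length
    refine iSup_le fun k => iSup_le fun t => iSup_le fun ht => ?_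
    obtain ⟨hmono, h0, h1⟩ := ht
    have hterm : ∀ i : Fin k, dI (mk (halfLine (a + (t i.succ) * (b - a))))
        (mk (halfLine (a + (t i.castSucc) * (b - a)))) =
        ENNReal.ofReal (((t i.succ : ℝ) - t i.castSucc) * |b - a|) := by
      intro i
      rw [hdist, abs_of_nonneg]
      have : t i.castSucc ≤ t i.succ := hmono (Fin.castSucc_lt_succ (i := i)).le
      exact sub_nonneg.2 this
    rw [Finset.sum_congr rfl fun i _ => hterm i]
    rw [← ENNReal.ofReal_sum_of_nonneg]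
    · apply ENNReal.ofReal_le_ofReal
      rw [← Finset.sum_mul, sum_telescope (fun i => (t i : ℝ)), h0, h1]
      simp
    · intro i _
      have : t i.castSucc ≤ t i.succ := hmono (Fin.castSucc_lt_succ (i := i)).le
      exact mul_nonneg (sub_nonneg.2 this) (abs_nonneg _)

end MT

end Pool.Agent
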