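import Pool.Agent.MergeTree.Leaves

/-!
# Star shaped merge trees
-/

set_option autoImplicit false

namespace Pool.Agent

open Set Filter Topology Pool.Agent.MergeTree

namespace MTree

section Star

variable (n : ℕ) (ht : Fin (n + 1) → ℝ)

/-- The star graph with centre `0`. -/
abbrev SG : SimpleGraph (Fin (n + 1)) := SimpleGraph.starGraph 0

lemma adj_zero {n : ℕ} {v : Fin (n + 1)} (h : v ≠ 0) : (SG n).Adj 0 v :=
  SimpleGraph.starGraph_center_adj (Ne.symm h)

/-- The height function of the star tree. -/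
noncomputable def starF : Glued (vtx (SG n) 0) → ℝ :=
  Quot.lift (Sum.elim (fun x => ∑ v, x.1 v * ht v) (fun s => ht 0 + (s : ℝ) / (1 - s))) (by
    rintro _ _ ⟨⟩
    have hz : ((zeroRay : Ico (0 : ℝ) 1) : ℝ) = 0 := rfl
    simp only [Sum.elim_inl, Sum.elim_inr, hz, zero_div, add_zero]
    rw [Finset.sum_eq_single 0]
    · simp [vtx]
    · intro b _ hb
      simp [vtx, hb]
    · intro h
      exact absurd (Finset.mem_univ _) h)

lemma starF_inX (x : Realization (SG n)) : starF n ht (inX x) = ∑ v, x.1 v * ht v := rfl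

lemma starF_inRay (s : Ico (0 : ℝ) 1) : starF n ht (inRay s) = ht 0 + (s : ℝ) / (1 - s) := rfl

lemma continuous_starF : Continuous (starF n ht) := by
  refine continuous_quot_lift _ ?_
  refine Continuous.sumElim ?_ ?_
  · refine continuous_finsetSum _ fun v _ => ?_
    exact (continuous_coord v).mul continuous_const
  · refine continuous_const.add ?_
    refine Continuous.div (by fun_prop) (by fun_prop) ?_
    intro s
    linarith [s.2.2]

lemma starF_seg {v : Fin (n + 1)} (hv : v ≠ 0) {t : ℝ} (htI : t ∈ Icc (0 : ℝ) 1) :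
    starF n ht (inX (seg (adj_zero hv) t)) = (1 - t) * ht 0 + t * ht v := by
  rw [starF_inX, ← Finset.add_sum_erase _ _ (Finset.mem_univ 0),
    ← Finset.add_sum_erase _ _ (Finset.mem_erase.2 ⟨hv, Finset.mem_univ v⟩),
    seg_left _ htI, seg_right _ htI, Finset.sum_eq_zero, add_zero]
  intro w hw
  rw [Finset.mem_erase, Finset.mem_erase] at hw
  rw [seg_other _ htI hw.2.1 hw.1, zero_mul]

lemma mass_star {v : Fin (n + 1)} (hv : v ≠ 0) (x : Realization (SG n)) :
    mass (SG n) 0 v x = x.1 v := by
  classical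
  unfold mass
  rw [Finset.sum_eq_single v]
  · rw [if_pos (SimpleGraph.Reachable.refl v)]
  · intro w _ hwv
    rw [if_neg]
    rintro ⟨p⟩
    cases p with
    | nil => exact hwv rfl
    | @cons _ b _ h _ =>
      rw [SimpleGraph.deleteEdges_adj] at h
      obtain ⟨h1, h2⟩ := h
      rw [SimpleGraph.starGraph_adj] at h1
      rcases h1.2 with h3 | h3
      · exact hv h3
      · apply h2
        rw [Set.mem_singleton_iff, h3, Sym2.eq_swap]
  · intro h
    exact absurd (Finset.mem_univ v) h

lemma star_strictMono_path (hlt : ∀ v, v ≠ 0 → ht v < ht 0) (c : C(unitInterval, Realization (SG n)))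
    (hc : Function.Injective c) (h1 : c 1 = vtx (SG n) 0) :
    StrictMono fun s => starF n ht (inX (c s)) := by
  have hG : (SG n).IsAcyclic := SimpleGraph.isAcyclic_starGraph 0
  -- the reversed arc
  let d : ℝ → Realization (SG n) := fun t => c (projIcc 0 1 zero_le_one (1 - t))
  have hd : ∀ s : unitInterval, d (1 - s) = c s := by
    intro s
    simp only [d, sub_sub_cancel]
    rw [projIcc_val]
  have harc : IsArc d 0 1 (vtx (SG n) 0) (c 0) := by
    refine ⟨one_pos, ?_, ?_, ?_, ?_⟩
    · exact (c.continuous.comp (continuous_projIcc.comp (by fun_prop))).continuousOn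
    · intro s hs t ht hst
      have h2 := hc hst
      rw [projIcc_of_mem zero_le_one (x := 1 - s) ⟨by linarith [hs.2], by linarith [hs.1]⟩,
        projIcc_of_mem zero_le_one (x := 1 - t) ⟨by linarith [ht.2], by linarith [ht.1]⟩] at h2
      have := congrArg Subtype.val h2
      simp only at this
      linarith
    · rw [← h1, ← hd 1]
      simp
    · rw [← hd 0]
      simp
  have h0 : c 0 ≠ vtx (SG n) 0 := by
    rw [← h1]
    intro h
    exact absurd (hc h) (by simp)
  -- the leaf
  obtain ⟨v, hv, hvc⟩ : ∃ v, v ≠ 0 ∧ (c 0).1 v ≠ 0 := by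
    by_contra hcon
    push Not at hcon
    apply h0
    apply eq_vtx_of_coord_eq_one
    have h2 := (c 0).2.2.1
    rw [← Finset.add_sum_erase _ _ (Finset.mem_univ 0)] at h2
    have h3 : ∑ w ∈ Finset.univ.erase (0 : Fin (n + 1)), (c 0).1 w = 0 :=
      Finset.sum_eq_zero fun w hw => hcon w (Finset.mem_erase.1 hw).1
    linarith
  have hvpos : 0 < (c 0).1 v := lt_of_le_of_ne ((c 0).2.1 v) (Ne.symm hvc)
  have harc' := harc
  rw [← seg_zero (adj_zero hv)] at harc'
  have hmass : ∀ s ∈ Ioc (0 : ℝ) 1, 0 < (d s).1 v := by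
    intro s hs
    rw [← mass_star n hv]
    refine harc'.mass_gt hG (adj_zero hv) (by simp) (show (1 : ℝ) ∈ Ioc (0 : ℝ) 1 by simp) hs ?_
    rw [harc'.right, mass_star n hv]
    exact hvpos
  have hw : ∀ s : unitInterval, c s = seg (adj_zero hv) ((c s).1 v) := by
    intro s
    by_cases hs : s = 1
    · rw [hs, h1]
      have : (vtx (SG n) 0).1 v = 0 := by simp [vtx, hv]
      rw [this, seg_zero]
    · have hs' : (s : ℝ) < 1 := lt_of_le_of_ne s.2.2 (fun h => hs (Subtype.ext h))
      have hpos := hmass (1 - s) ⟨by linarith, by linarith [s.2.1]⟩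
      rw [hd s] at hpos
      rcases (coord_le_one (c s) v).eq_or_lt with heq | hlt'
      · rw [heq, seg_one]
        exact eq_vtx_of_coord_eq_one heq
      · have := eq_seg_of_mass hG (adj_zero hv) (x := c s)
          (by rw [mass_star n hv]; exact ⟨hpos, hlt'⟩)
        rwa [mass_star n hv] at this
  have hI : ∀ s : unitInterval, (c s).1 v ∈ Icc (0 : ℝ) 1 :=
    fun s => ⟨(c s).2.1 v, coord_le_one (c s) v⟩
  have hwc : Continuous (fun s : unitInterval => (c s).1 v) :=
    (continuous_coord v).comp c.continuous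
  have hwi : Function.Injective (fun s : unitInterval => (c s).1 v) := by
    intro s t hst
    apply hc
    have hst' : (c s).1 v = (c t).1 v := hst
    rw [hw s, hw t, hst']
  have hanti : StrictAnti (fun s : unitInterval => (c s).1 v) := by
    refine hwc.strictAnti_of_inj_boundedOrder ?_ hwi
    show (c 1).1 v ≤ (c 0).1 v
    rw [h1]
    have : (vtx (SG n) 0).1 v = 0 := by simp [vtx, hv]
    rw [this]
    exact hvpos.le
  intro s t hst
  have h3 : (c t).1 v < (c s).1 v := hanti hst
  show starF n ht (inX (c s)) < starF n ht (inX (c t))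
  rw [hw s, hw t, starF_seg n ht hv (hI s), starF_seg n ht hv (hI t)]
  have := hlt v hv
  nlinarith

/-- The star tree with centre at height `ht 0` and leaves at heights `ht v < ht 0`, `v ≠ 0`. -/
@[reducible] noncomputable def star (hlt : ∀ v, v ≠ 0 → ht v < ht 0) : MTree where
  m := n + 1
  G := SG n
  isTree := SimpleGraph.isTree_starGraph 0
  x₀ := vtx (SG n) 0
  f := starF n ht
  continuous_f := continuous_starF n ht
  strictMono_ray := by
    intro s t hst
    show ht 0 + (s : ℝ) / (1 - s) < ht 0 + (t : ℝ) / (1 - t)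
    have h1 : (s : ℝ) < t := hst
    have h2 : (t : ℝ) < 1 := t.2.2
    have : (s : ℝ) / (1 - s) < (t : ℝ) / (1 - t) := by
      rw [div_lt_div_iff₀ (by linarith) (by linarith)]
      nlinarith
    linarith
  tendsto_ray := by
    refine tendsto_atTop_atTop_of_monotone ?_ ?_
    · intro s t hst
      show ht 0 + (s : ℝ) / (1 - s) ≤ ht 0 + (t : ℝ) / (1 - t)
      have h1 : (s : ℝ) ≤ t := hst
      have h2 : (t : ℝ) < 1 := t.2.2
      have : (s : ℝ) / (1 - s) ≤ (t : ℝ) / (1 - t) := by
        rw [div_le_div_iff₀ (by linarith) (by linarith)]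
        nlinarith
      linarith
    · intro b
      have hr : 0 ≤ max 0 (b - ht 0) := le_max_left _ _
      set r := max 0 (b - ht 0) with hrdef
      refine ⟨⟨r / (1 + r), div_nonneg hr (by linarith), by
        rw [div_lt_one (by linarith)]; linarith⟩, ?_⟩
      show b ≤ ht 0 + r / (1 + r) / (1 - r / (1 + r))
      have : r / (1 + r) / (1 - r / (1 + r)) = r := by
        field_simp
        ring
      rw [this]
      have := le_max_right 0 (b - ht 0)
      linarith
  strictMono_path := star_strictMono_path n ht hlt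

/-- A point on the ray. -/
noncomputable def rayPt (r : ℝ) : Ico (0 : ℝ) 1 :=
  ⟨max r 0 / (1 + max r 0), div_nonneg (le_max_right _ _) (by linarith [le_max_right r 0]), by
    rw [div_lt_one (by linarith [le_max_right r 0])]; linarith⟩

lemma continuous_rayPt : Continuous rayPt := by
  refine Continuous.subtype_mk ?_ _
  refine Continuous.div (by fun_prop) (by fun_prop) ?_
  intro r
  have := le_max_right r 0
  linarith

lemma rayPt_zero : rayPt 0 = zeroRay := by
  apply Subtype.ext
  simp [rayPt, zeroRay]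

lemma starF_rayPt {r : ℝ} (hr : 0 ≤ r) : starF n ht (inRay (rayPt r)) = ht 0 + r := by
  rw [starF_inRay]
  simp only [rayPt, max_eq_left hr]
  have : r / (1 + r) / (1 - r / (1 + r)) = r := by
    field_simp
    ring
  rw [this]

variable {n} (hlt : ∀ v, v ≠ 0 → ht v < ht 0)

/-- The branch of the star tree from the leaf `v` to infinity, parametrised by height. -/
noncomputable def branch {v : Fin (n + 1)} (hv : v ≠ 0) (l : ℝ) : (star n ht hlt).Pt :=
  if l ≤ ht 0 then inX (seg (adj_zero hv) ((ht 0 - l) / (ht 0 - ht v)))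
  else inRay (rayPt (l - ht 0))

lemma continuous_branch {v : Fin (n + 1)} (hv : v ≠ 0) : Continuous (branch ht hlt hv) := by
  have h1 := hlt v hv
  refine Continuous.if_le ?_ ?_ continuous_id continuous_const ?_
  · exact continuous_inX.comp ((continuous_seg _).comp (by fun_prop))
  · exact continuous_inRay.comp (continuous_rayPt.comp (by fun_prop))
  · intro l hl
    have hl' : l = ht 0 := hl
    subst hl'
    rw [sub_self, zero_div, seg_zero, rayPt_zero]
    exact inX_root

lemma f_branch {v : Fin (n + 1)} (hv : v ≠ 0) {l : ℝ} (hl : ht v ≤ l) :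
    (star n ht hlt).f (branch ht hlt hv l) = l := by
  have h1 := hlt v hv
  unfold branch
  by_cases h : l ≤ ht 0
  · rw [if_pos h]
    have hI : (ht 0 - l) / (ht 0 - ht v) ∈ Icc (0 : ℝ) 1 :=
      ⟨div_nonneg (by linarith) (by linarith), by rw [div_le_one (by linarith)]; linarith⟩
    refine (starF_seg n ht hv hI).trans ?_
    have hne : ht 0 - ht v ≠ 0 := by linarith
    field_simp
    ring
  · rw [if_neg h]
    push Not at h
    refine (starF_rayPt n ht (by linarith)).trans ?_
    ring

lemma lreach_branch {v : Fin (n + 1)} (hv : v ≠ 0) {a b : ℝ} (ha : ht v ≤ a) (hab : a ≤ b) :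
    (star n ht hlt).LReach (branch ht hlt hv a) (branch ht hlt hv b) := by
  refine ⟨?_, branch ht hlt hv, (continuous_branch ht hlt hv).continuousOn, ?_, ?_, ?_⟩
  · rw [f_branch ht hlt hv ha, f_branch ht hlt hv (ha.trans hab)]
    exact hab
  · rw [f_branch ht hlt hv ha]
  · rw [f_branch ht hlt hv (ha.trans hab)]
  · intro l hl
    rw [f_branch ht hlt hv ha] at hl
    exact f_branch ht hlt hv (ha.trans hl.1)

/-- Every point at height at least `ht 0` is on every branch. -/
lemma eq_branch_of_ge {v : Fin (n + 1)} (hv : v ≠ 0) {p : (star n ht hlt).Pt}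
    (hp : ht 0 ≤ (star n ht hlt).f p) : p = branch ht hlt hv ((star n ht hlt).f p) := by
  have hroot : (star n ht hlt).f (inX (star n ht hlt).x₀) = ht 0 := by
    rw [inX_root]
    show starF n ht (inRay zeroRay) = ht 0
    rw [starF_inRay]
    simp [zeroRay]
  obtain ⟨s, rfl⟩ := exists_ray (T := star n ht hlt) (p := p) (by rw [hroot]; exact hp)
  have h1 : ht v ≤ (star n ht hlt).f (inRay s) := (hlt v hv).le.trans hp
  obtain ⟨s', hs'⟩ := exists_ray (T := star n ht hlt)
    (p := branch ht hlt hv ((star n ht hlt).f (inRay s)))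
    (by rw [hroot, f_branch ht hlt hv h1]; exact hp)
  rw [hs']
  congr 1
  apply (star n ht hlt).strictMono_ray.injective
  show (star n ht hlt).f (inRay s) = (star n ht hlt).f (inRay s')
  rw [← hs', f_branch ht hlt hv h1]

/-- Every point is on a branch (if there is at least one leaf). -/
lemma exists_branch {v₀ : Fin (n + 1)} (hv₀ : v₀ ≠ 0) (p : (star n ht hlt).Pt) :
    ∃ (v : Fin (n + 1)) (hv : v ≠ 0), ht v ≤ (star n ht hlt).f p ∧
      p = branch ht hlt hv ((star n ht hlt).f p) := by
  by_cases hp : ht 0 ≤ (star n ht hlt).f p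
  · exact ⟨v₀, hv₀, (hlt v₀ hv₀).le.trans hp, eq_branch_of_ge ht hlt hv₀ hp⟩
  · have hG : (SG n).IsAcyclic := SimpleGraph.isAcyclic_starGraph 0
    have hroot : (star n ht hlt).f (inX (star n ht hlt).x₀) = ht 0 := by
      rw [inX_root]
      show starF n ht (inRay zeroRay) = ht 0
      rw [starF_inRay]
      simp [zeroRay]
    obtain ⟨x, rfl⟩ : ∃ x, p = inX x := by
      rcases cases_pt p with h | ⟨s, rfl⟩
      · exact h
      · have := f_root_le_ray (T := star n ht hlt) s
        rw [hroot] at this
        exact absurd this hp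
    have hx : ∃ v, v ≠ 0 ∧ x.1 v ≠ 0 := by
      by_contra hcon
      push Not at hcon
      apply hp
      have h2 := x.2.2.1
      rw [← Finset.add_sum_erase _ _ (Finset.mem_univ 0)] at h2
      have h3 : ∑ w ∈ Finset.univ.erase (0 : Fin (n + 1)), x.1 w = 0 :=
        Finset.sum_eq_zero fun w hw => hcon w (Finset.mem_erase.1 hw).1
      have h4 : x = vtx (SG n) 0 := eq_vtx_of_coord_eq_one (by linarith)
      rw [h4]
      exact hroot.ge
    obtain ⟨v, hv, hxv⟩ := hx
    have hxs : ∃ t ∈ Icc (0 : ℝ) 1, x = seg (adj_zero hv) t := by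
      rcases (coord_le_one x v).eq_or_lt with heq | hlt'
      · exact ⟨1, by simp, by rw [seg_one]; exact eq_vtx_of_coord_eq_one heq⟩
      · have hpos : 0 < x.1 v := lt_of_le_of_ne (x.2.1 v) (Ne.symm hxv)
        have := eq_seg_of_mass hG (adj_zero hv) (x := x)
          (by rw [mass_star n hv]; exact ⟨hpos, hlt'⟩)
        rw [mass_star n hv] at this
        exact ⟨x.1 v, ⟨hpos.le, hlt'.le⟩, this⟩
    obtain ⟨t, htI, rfl⟩ := hxs
    have h1 := hlt v hv
    have hf : (star n ht hlt).f (inX (seg (adj_zero hv) t)) = (1 - t) * ht 0 + t * ht v :=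
      starF_seg n ht hv htI
    refine ⟨v, hv, ?_, ?_⟩
    · rw [hf]
      nlinarith [htI.1, htI.2]
    · rw [hf]
      unfold branch
      rw [if_pos (by nlinarith [htI.1, htI.2])]
      congr 2
      have hne : ht 0 - ht v ≠ 0 := by linarith
      field_simp
      ring

/-- Different branches are disjoint below `ht 0`. -/
lemma branch_ne {v w : Fin (n + 1)} (hv : v ≠ 0) (hw : w ≠ 0) (hvw : v ≠ w) {l l' : ℝ}
    (hl : ht v ≤ l) (hl0 : l < ht 0) (hl' : ht w ≤ l') (hl0' : l' < ht 0) :
    branch ht hlt hv l ≠ branch ht hlt hw l' := by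
  intro h
  unfold branch at h
  rw [if_pos hl0.le, if_pos hl0'.le] at h
  have h1 := inX_injective h
  have hv1 := hlt v hv
  have hw1 := hlt w hw
  have hI : (ht 0 - l) / (ht 0 - ht v) ∈ Icc (0 : ℝ) 1 :=
    ⟨div_nonneg (by linarith) (by linarith), by rw [div_le_one (by linarith)]; linarith⟩
  have hI' : (ht 0 - l') / (ht 0 - ht w) ∈ Icc (0 : ℝ) 1 :=
    ⟨div_nonneg (by linarith) (by linarith), by rw [div_le_one (by linarith)]; linarith⟩
  have h2 := congrArg (fun x : Realization (SG n) => x.1 v) h1
  simp only [seg_right _ hI, seg_other _ hI' hv hvw] at h2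
  have : 0 < (ht 0 - l) / (ht 0 - ht v) := div_pos (by linarith) (by linarith)
  linarith

lemma leaves_star : (star n ht hlt).leaves.ncard ≤ n := by
  have hsub : (star n ht hlt).leaves ⊆ (↑(Finset.univ.erase (0 : Fin (n + 1))) : Set (Fin (n + 1))) := by
    intro v hv
    rw [Finset.coe_erase, Finset.coe_univ]
    refine ⟨mem_univ _, ?_⟩
    rintro rfl
    exact hv.2 rfl
  refine (Set.ncard_le_ncard hsub (Finset.finite_toSet _)).trans ?_
  rw [Set.ncard_coe_finset, Finset.card_erase_of_mem (Finset.mem_univ _)]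
  simp

end Star

end MTree

end Pool.Agent
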