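import Pool.Agent.MergeTree.Glue

/-!
# Basic theory of merge trees: upward uniqueness, existence of shifts, leaves
-/

set_option autoImplicit false

namespace Pool.Agent

open Set Filter Topology Pool.Agent.MergeTree

namespace MTree

variable (T : MTree)

/-- `f` is strictly increasing along every arc ending at the root. -/
lemma arc_strictMonoOn {c : ℝ → Realization T.G} {a b : ℝ} {x : Realization T.G}
    (h : IsArc c a b x T.x₀) : StrictMonoOn (fun t => T.f (inX (c t))) (Icc a b) := by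
  have hab : 0 < b - a := sub_pos.2 h.lt
  have hmem : ∀ s : unitInterval, a + s * (b - a) ∈ Icc a b := by
    intro s
    constructor
    · nlinarith [s.2.1, s.2.2]
    · nlinarith [s.2.1, s.2.2]
  let c' : C(unitInterval, Realization T.G) :=
    ⟨fun s => c (a + s * (b - a)), h.cont.comp_continuous (by fun_prop) hmem⟩
  have hinj : Function.Injective c' := by
    intro s t hst
    have := h.inj (hmem s) (hmem t) hst
    apply Subtype.ext
    have h2 : ((s : ℝ) - t) * (b - a) = 0 := by linarith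
    rcases mul_eq_zero.1 h2 with h3 | h3
    · linarith
    · exact absurd h3 hab.ne'
  have h1 : c' 1 = T.x₀ := by
    show c (a + ((1 : unitInterval) : ℝ) * (b - a)) = T.x₀
    rw [show ((1 : unitInterval) : ℝ) = 1 from rfl, one_mul, add_sub_cancel]
    exact h.right
  have hmono := T.strictMono_path c' hinj h1
  intro s hs t ht hst
  have hs' : (s - a) / (b - a) ∈ Icc (0 : ℝ) 1 :=
    ⟨div_nonneg (by linarith [hs.1]) hab.le, by rw [div_le_one hab]; linarith [hs.2]⟩
  have ht' : (t - a) / (b - a) ∈ Icc (0 : ℝ) 1 :=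
    ⟨div_nonneg (by linarith [ht.1]) hab.le, by rw [div_le_one hab]; linarith [ht.2]⟩
  have hlt : (⟨_, hs'⟩ : unitInterval) < ⟨_, ht'⟩ := by
    rw [Subtype.mk_lt_mk]
    exact div_lt_div_of_pos_right (by linarith) hab
  have := hmono hlt
  have e1 : a + (s - a) / (b - a) * (b - a) = s := by
    rw [div_mul_cancel₀ _ hab.ne']
    ring
  have e2 : a + (t - a) / (b - a) * (b - a) = t := by
    rw [div_mul_cancel₀ _ hab.ne']
    ring
  have h3 : T.f (inX (c (a + (s - a) / (b - a) * (b - a)))) <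
    T.f (inX (c (a + (t - a) / (b - a) * (b - a)))) := this
  rwa [e1, e2] at h3

/-- `y` is reached from `x` by an increasing path parametrised by the value of `f`. -/
def LReach (x y : T.Pt) : Prop :=
  T.f x ≤ T.f y ∧ ∃ g : ℝ → T.Pt, ContinuousOn g (Icc (T.f x) (T.f y)) ∧
    g (T.f x) = x ∧ g (T.f y) = y ∧ ∀ l ∈ Icc (T.f x) (T.f y), T.f (g l) = l

variable {T}

lemma LReach.refl (x : T.Pt) : T.LReach x x := by
  refine ⟨le_rfl, fun _ => x, continuousOn_const, rfl, rfl, ?_⟩
  intro l hl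
  exact le_antisymm hl.1 hl.2

lemma LReach.trans {x y z : T.Pt} (h : T.LReach x y) (h' : T.LReach y z) : T.LReach x z := by
  obtain ⟨hxy, g, hg, hgx, hgy, hgf⟩ := h
  obtain ⟨hyz, g', hg', hgy', hgz', hgf'⟩ := h'
  refine ⟨hxy.trans hyz, fun l => if l ≤ T.f y then g l else g' l, ?_, ?_, ?_, ?_⟩
  · rw [← Icc_union_Icc_eq_Icc hxy hyz]
    refine ContinuousOn.union_of_isClosed ?_ ?_ isClosed_Icc isClosed_Icc
    · refine hg.congr ?_
      intro t ht
      simp [ht.2]
    · refine hg'.congr ?_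
      intro t ht
      by_cases hty : t ≤ T.f y
      · have : t = T.f y := le_antisymm hty ht.1
        subst this
        simp [hgy, hgy']
      · simp [hty]
  · simp [hxy, hgx]
  · by_cases hzy : T.f z ≤ T.f y
    · have : T.f z = T.f y := le_antisymm hzy hyz
      have hyz' : y = z := by rw [← hgy', ← hgz', this]
      subst hyz'
      simp [hgy]
    · simp [hzy, hgz']
  · intro l hl
    by_cases hly : l ≤ T.f y
    · simp only [hly, if_true]
      exact hgf l ⟨hl.1, hly⟩
    · simp only [hly, if_false]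
      exact hgf' l ⟨(not_le.1 hly).le, hl.2⟩

lemma lreach_of_strictMonoOn {c : ℝ → T.Pt} {a b : ℝ} (hab : a ≤ b)
    (hc : ContinuousOn c (Icc a b)) (hm : StrictMonoOn (fun t => T.f (c t)) (Icc a b)) :
    T.LReach (c a) (c b) := by
  have hmono := hm.monotoneOn
  have ha : a ∈ Icc a b := left_mem_Icc.2 hab
  have hb : b ∈ Icc a b := right_mem_Icc.2 hab
  have hFc : ContinuousOn (fun t => T.f (c t)) (Icc a b) := T.continuous_f.comp_continuousOn hc
  let F : Icc a b → ℝ := fun s => T.f (c s)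
  have hF : Continuous F := hFc.domRestrict
  have hFi : Function.Injective F := by
    intro s t hst
    exact Subtype.ext (hm.injOn s.2 t.2 hst)
  have hemb : IsEmbedding F := (hF.isClosedEmbedding hFi).isEmbedding
  let e : Icc a b ≃ₜ range F := hemb.toHomeomorph
  have hrange : Icc (T.f (c a)) (T.f (c b)) ⊆ range F := by
    intro l hl
    obtain ⟨t, ht, htl⟩ := intermediate_value_Icc hab hFc hl
    exact ⟨⟨t, ht⟩, htl⟩
  classical
  let g : ℝ → T.Pt := fun l => if h : l ∈ range F then c (e.symm ⟨l, h⟩) else c a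
  have hgF : ∀ s : Icc a b, g (F s) = c s := by
    intro s
    have h : F s ∈ range F := mem_range_self s
    simp only [g, h, dif_pos]
    congr 2
    rw [Homeomorph.symm_apply_eq]
    rfl
  have hgc : ContinuousOn g (range F) := by
    rw [continuousOn_iff_continuous_domRestrict]
    have : (range F).domRestrict g = fun l => c (e.symm l) := by
      funext l
      simp only [Set.domRestrict_apply, g]
      rw [dif_pos l.2]
    rw [this]
    have hcr : Continuous (fun s : Icc a b => c s) := hc.domRestrict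
    exact hcr.comp e.symm.continuous
  refine ⟨hmono ha hb hab, g, hgc.mono hrange, hgF ⟨a, ha⟩, hgF ⟨b, hb⟩, ?_⟩
  intro l hl
  obtain ⟨s, rfl⟩ := hrange hl
  rw [hgF]

lemma reaches_iff_lreach {x y : T.Pt} : T.Reaches x y ↔ T.LReach x y := by
  constructor
  · rintro (rfl | ⟨c, hc⟩)
    · exact LReach.refl x
    · have hcont : ContinuousOn c.extend (Icc 0 1) := c.continuous_extend.continuousOn
      have hm : StrictMonoOn (fun t => T.f (c.extend t)) (Icc 0 1) := by
        intro s hs t ht hst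
        simp only [c.extend_apply hs, c.extend_apply ht]
        exact hc (Subtype.mk_lt_mk.2 hst)
      have := lreach_of_strictMonoOn zero_le_one hcont hm
      rwa [c.extend_zero, c.extend_one] at this
  · rintro ⟨hxy, g, hg, hgx, hgy, hgf⟩
    rcases hxy.eq_or_lt with heq | hlt
    · left
      rw [← hgx, ← hgy, heq]
    · right
      have hmem : ∀ s : unitInterval, T.f x + s * (T.f y - T.f x) ∈ Icc (T.f x) (T.f y) := by
        intro s
        constructor
        · nlinarith [s.2.1, s.2.2]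
        · nlinarith [s.2.1, s.2.2]
      refine ⟨⟨⟨fun s => g (T.f x + s * (T.f y - T.f x)),
        hg.comp_continuous (by fun_prop) hmem⟩, ?_, ?_⟩, ?_⟩
      · simp [hgx]
      · simp [hgy]
      · intro s t hst
        show T.f (g (T.f x + s * (T.f y - T.f x))) < T.f (g (T.f x + t * (T.f y - T.f x)))
        rw [hgf _ (hmem s), hgf _ (hmem t)]
        have : (s : ℝ) < t := hst
        nlinarith

lemma f_inX_lt {x : Realization T.G} (hx : x ≠ T.x₀) : T.f (inX x) < T.f (inX T.x₀) := by
  rcases arcJoined T.isTree x T.x₀ with h | ⟨c, a, b, h⟩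
  · exact absurd h hx
  · have := T.arc_strictMonoOn h (left_mem_Icc.2 h.lt.le) (right_mem_Icc.2 h.lt.le) h.lt
    simpa [h.left, h.right] using this

lemma f_root_le_ray (s : Ico (0 : ℝ) 1) : T.f (inX T.x₀) ≤ T.f (inRay s) := by
  rw [inX_root]
  exact T.strictMono_ray.monotone (show (zeroRay : Ico (0 : ℝ) 1) ≤ s from s.2.1)

/-- Every point at least as high as the root is on the ray. -/
lemma exists_ray {p : T.Pt} (hp : T.f (inX T.x₀) ≤ T.f p) : ∃ s, p = inRay s := by
  rcases cases_pt p with ⟨x, rfl⟩ | h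
  · by_cases hx : x = T.x₀
    · subst hx
      exact ⟨zeroRay, inX_root⟩
    · exact absurd (f_inX_lt hx) (not_lt.2 hp)
  · exact h

/-- Going down in direction `u` from a point of the edge `v u` when the root is on the side of
`v`. -/
lemma down {v u : Fin T.m} (h : T.G.Adj v u) {a τ : ℝ} (ha : 0 ≤ a) (haτ : a < τ) (hτ : τ ≤ 1)
    (hm : mass T.G v u T.x₀ ≤ a) :
    T.LReach (inX (seg h τ)) (inX (seg h a)) ∧
      T.f (inX (seg h τ)) < T.f (inX (seg h a)) := by
  have haI : a ∈ Ico (0 : ℝ) 1 := ⟨ha, haτ.trans_le hτ⟩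
  have hrev : IsArc (fun t => seg h (-t)) (-τ) (-a) (seg h τ) (seg h a) :=
    (isArc_seg h ha haτ hτ).reverse
  -- there is an arc from `seg h τ` to the root extending `hrev`
  have key : ∃ (c : ℝ → Realization T.G) (e : ℝ), -a ≤ e ∧ IsArc c (-τ) e (seg h τ) T.x₀ ∧
      c (-a) = seg h a := by
    rcases arcJoined T.isTree (seg h a) T.x₀ with heq | ⟨c, α, β, hc⟩
    · rw [heq] at hrev
      exact ⟨_, -a, le_rfl, hrev, by rw [heq]; exact hrev.right⟩
    · have hc' := hc.shift (-a - α)
      have e1 : α + (-a - α) = -a := by ring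
      rw [e1] at hc'
      have hcat := hrev.concat hc' (by
        intro s hs t ht hst
        have hsI : -s ∈ Icc (0 : ℝ) 1 := ⟨by linarith [hs.2], by linarith [hs.1]⟩
        by_contra hta
        have ht1 : t - (-a - α) ∈ Ioc α β := by
          constructor
          · have : -a < t := lt_of_le_of_ne ht.1 (Ne.symm hta)
            linarith
          · linarith [ht.2]
        have hm1 : mass T.G v u (c (t - (-a - α))) ≤ a := by
          by_contra hcon
          push Not at hcon
          have hβ : β ∈ Ioc α β := ⟨hc.lt, le_rfl⟩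
          have := hc.mass_gt T.isTree.isAcyclic h haI ht1 hβ hcon
          rw [hc.right] at this
          exact absurd this (not_lt.2 hm)
        have hst' : seg h (-s) = c (t - (-a - α)) := hst
        rw [← hst', mass_seg T.isTree.isAcyclic h hsI] at hm1
        have hsa : s = -a := by linarith [hs.2]
        subst hsa
        have h2 : c (t - (-a - α)) = c α := by
          rw [hc.left, ← hst', neg_neg]
        have h3 := hc.inj ⟨ht1.1.le, ht1.2⟩ (left_mem_Icc.2 hc.lt.le) h2
        exact absurd h3 ht1.1.ne')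
      refine ⟨_, _, ?_, hcat, ?_⟩
      · linarith [hc'.lt]
      · simp
  obtain ⟨c, e, hae, hc, hca⟩ := key
  have hmono := T.arc_strictMonoOn hc
  have hsub : Icc (-τ) (-a) ⊆ Icc (-τ) e := Icc_subset_Icc le_rfl hae
  have hlt : -τ < -a := by linarith
  constructor
  · have hcc : ContinuousOn (fun t => (inX (c t) : T.Pt)) (Icc (-τ) (-a)) :=
      continuous_inX.comp_continuousOn (hc.cont.mono hsub)
    have := lreach_of_strictMonoOn hlt.le hcc (hmono.mono hsub)
    rwa [hc.left, hca] at this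
  · have := hmono (left_mem_Icc.2 (hlt.le.trans hae)) (hsub (right_mem_Icc.2 hlt.le)) hlt
    simpa [hc.left, hca] using this

/-- Points close to `x ≠ x₀` which are at least as high as `x` are on a given arc from `x` to the
root. -/
lemma mem_arc {x : Realization T.G} {c : ℝ → Realization T.G} {α β : ℝ}
    (hc : IsArc c α β x T.x₀) {q : Realization T.G} (hs : ∀ w, x.1 w ≠ 0 → q.1 w ≠ 0)
    (hd : dist q.1 x.1 < dist T.x₀.1 x.1) (hf : T.f (inX x) ≤ T.f (inX q)) : q ∈ c '' Icc α β := by
  by_cases hne : q = x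
  · subst hne
    exact ⟨α, left_mem_Icc.2 hc.lt.le, hc.left⟩
  obtain ⟨v, u, h, a, τ, ha, haτ, hτ, rfl, rfl⟩ := star T.isTree.isAcyclic hs hne
  have haI : a ∈ Icc (0 : ℝ) 1 := ⟨ha, (haτ.trans hτ).le⟩
  have hτI : τ ∈ Icc (0 : ℝ) 1 := ⟨ha.trans haτ.le, hτ.le⟩
  have hm : a < mass T.G v u T.x₀ := by
    by_contra hcon
    push Not at hcon
    exact absurd (down h ha haτ hτ.le hcon).2 (not_lt.2 hf)
  have hτm : τ < mass T.G v u T.x₀ := by
    by_contra hcon
    push Not at hcon
    have hmI : mass T.G v u T.x₀ ∈ Ioo (0 : ℝ) 1 := ⟨ha.trans_lt hm, hcon.trans_lt hτ⟩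
    have hx0 := eq_seg_of_mass T.isTree.isAcyclic h hmI
    rw [hx0, dist_seg h hτI haI, dist_seg h ⟨hmI.1.le, hmI.2.le⟩ haI,
      abs_of_pos (by linarith), abs_of_pos (by linarith)] at hd
    linarith
  have hcm : ContinuousOn (fun r => mass T.G v u (c r)) (Icc α β) :=
    (continuous_mass v u).comp_continuousOn hc.cont
  have hIVT := intermediate_value_Icc hc.lt.le hcm
  have hmem : τ ∈ Icc (mass T.G v u (c α)) (mass T.G v u (c β)) := by
    rw [hc.left, hc.right, mass_seg T.isTree.isAcyclic h haI]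
    exact ⟨haτ.le, hτm.le⟩
  obtain ⟨r, hr, hrτ⟩ := hIVT hmem
  have hrτ' : mass T.G v u (c r) = τ := hrτ
  refine ⟨r, hr, ?_⟩
  have := eq_seg_of_mass T.isTree.isAcyclic h (x := c r) (by
    rw [hrτ']
    exact ⟨ha.trans_lt haτ, hτ⟩)
  rw [this, hrτ']

/-- Local uniqueness in the upward direction. -/
lemma local_unique (p : T.Pt) : ∃ N ∈ 𝓝 p, ∀ q ∈ N, ∀ q' ∈ N, T.f q = T.f q' → T.f p ≤ T.f q →
    q = q' := by
  by_cases hp : T.f (inX T.x₀) ≤ T.f p
  · refine ⟨univ, univ_mem, fun q _ q' _ hqq hpq => ?_⟩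
    obtain ⟨s, rfl⟩ := exists_ray (hp.trans hpq)
    obtain ⟨s', rfl⟩ := exists_ray (hp.trans (hpq.trans hqq.le))
    rw [T.strictMono_ray.injective hqq]
  · push Not at hp
    obtain ⟨x, rfl⟩ : ∃ x, p = inX x := by
      rcases cases_pt p with h | ⟨s, rfl⟩
      · exact h
      · exact absurd (f_root_le_ray s) (not_le.2 hp)
    have hx : x ≠ T.x₀ := by
      rintro rfl
      exact lt_irrefl _ hp
    obtain ⟨c, α, β, hc⟩ := (arcJoined T.isTree x T.x₀).resolve_left hx
    let U : Set (Realization T.G) :=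
      {q | (∀ w, x.1 w ≠ 0 → q.1 w ≠ 0) ∧ dist q.1 x.1 < dist T.x₀.1 x.1}
    have hU : IsOpen U := by
      have h1 : IsOpen {q : Realization T.G | ∀ w, x.1 w ≠ 0 → q.1 w ≠ 0} := by
        simp only [ofPred_forall]
        refine isOpen_iInter_of_finite fun w => ?_
        refine isOpen_iInter_of_finite fun _ => ?_
        exact isOpen_ne_fun (continuous_coord w) continuous_const
      have h2 : IsOpen {q : Realization T.G | dist q.1 x.1 < dist T.x₀.1 x.1} :=
        isOpen_lt (continuous_realization_val.dist continuous_const) continuous_const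
      exact h1.inter h2
    have h0 : T.x₀ ∉ U := fun h => lt_irrefl _ h.2
    have hxU : x ∈ U := ⟨fun w hw => hw, by
      rw [dist_self]
      exact dist_pos.2 fun h => hx (Realization.ext h.symm)⟩
    refine ⟨inX '' U, (isOpen_inX_image hU h0).mem_nhds ⟨x, hxU, rfl⟩, ?_⟩
    rintro _ ⟨q, hq, rfl⟩ _ ⟨q', hq', rfl⟩ hqq hpq
    obtain ⟨s, hs, rfl⟩ := mem_arc hc hq.1 hq.2 hpq
    obtain ⟨s', hs', rfl⟩ := mem_arc hc hq'.1 hq'.2 (hpq.trans hqq.le)
    rw [(T.arc_strictMonoOn hc).injOn hs hs' hqq]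

/-- Uniqueness of increasing paths. -/
lemma eqOn_of_paths {g g' : ℝ → T.Pt} {a b : ℝ} (hg : ContinuousOn g (Icc a b))
    (hg' : ContinuousOn g' (Icc a b)) (hf : ∀ l ∈ Icc a b, T.f (g l) = l)
    (hf' : ∀ l ∈ Icc a b, T.f (g' l) = l) (h0 : g a = g' a) : ∀ l ∈ Icc a b, g l = g' l := by
  have hcl : IsClosed ({l | g l = g' l} ∩ Icc a b) := by
    rw [inter_comm]
    exact (hg.prodMk hg').preimage_isClosed_of_isClosed isClosed_Icc isClosed_diagonal
  refine hcl.Icc_subset_of_forall_mem_nhdsWithin h0 ?_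
  rintro l ⟨hl, hlI⟩
  obtain ⟨N, hN, hNu⟩ := local_unique (g l)
  have hlIcc : l ∈ Icc a b := ⟨hlI.1, hlI.2.le⟩
  have hnb : Icc a b ∈ 𝓝[>] l := by
    have := Icc_mem_nhdsGT hlI.2
    exact mem_of_superset this (Icc_subset_Icc hlI.1 le_rfl)
  have hle : 𝓝[>] l ≤ 𝓝[Icc a b] l := by
    rw [nhdsWithin, nhdsWithin, le_inf_iff]
    exact ⟨inf_le_left, by rw [le_principal_iff]; exact hnb⟩
  have h1 : ∀ᶠ r in 𝓝[>] l, g r ∈ N := (hg l hlIcc).mono_left hle hN
  have h2 : ∀ᶠ r in 𝓝[>] l, g' r ∈ N := by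
    have hN' : N ∈ 𝓝 (g' l) := by
      rw [← show g l = g' l from hl]
      exact hN
    exact (hg' l hlIcc).mono_left hle hN'
  filter_upwards [h1, h2, hnb, self_mem_nhdsWithin] with r hr1 hr2 hr3 hr4
  refine hNu _ hr1 _ hr2 (by rw [hf r hr3, hf' r hr3]) ?_
  rw [hf l hlIcc, hf r hr3]
  exact le_of_lt hr4

lemma LReach.unique {x y z : T.Pt} (h : T.LReach x y) (h' : T.LReach x z)
    (hyz : T.f y = T.f z) : y = z := by
  obtain ⟨hxy, g, hg, hgx, hgy, hgf⟩ := h
  obtain ⟨hxz, g', hg', hgx', hgz', hgf'⟩ := h'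
  rw [← hyz] at hg' hgz' hgf'
  have := eqOn_of_paths hg hg' hgf hgf' (by rw [hgx, hgx']) (T.f y) (right_mem_Icc.2 hxy)
  rw [← hgy, this, hgz']

/-- The unique increasing path from `x` goes through every point reached from `x`. -/
lemma LReach.of_le {x y z : T.Pt} (h : T.LReach x y) (h' : T.LReach x z)
    (hyz : T.f y ≤ T.f z) : T.LReach y z := by
  obtain ⟨hxy, g, hg, hgx, hgy, hgf⟩ := h
  obtain ⟨hxz, g', hg', hgx', hgz', hgf'⟩ := h'
  have hsub : Icc (T.f x) (T.f y) ⊆ Icc (T.f x) (T.f z) := Icc_subset_Icc le_rfl hyz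
  have := eqOn_of_paths hg (hg'.mono hsub) hgf (fun l hl => hgf' l (hsub hl))
    (by rw [hgx, hgx']) (T.f y) (right_mem_Icc.2 hxy)
  have hsub' : Icc (T.f y) (T.f z) ⊆ Icc (T.f x) (T.f z) := Icc_subset_Icc hxy le_rfl
  refine ⟨hyz, g', hg'.mono hsub', by rw [← this, hgy], hgz', fun l hl => hgf' l (hsub' hl)⟩

/-- Existence on the ray. -/
lemma exists_lreach_ray (s : Ico (0 : ℝ) 1) {h : ℝ} (hh : T.f (inRay s) ≤ h) :
    ∃ y : T.Pt, T.LReach (inRay s) y ∧ T.f y = h := by
  obtain ⟨s₁, hs₁⟩ := (T.tendsto_ray.eventually_ge_atTop h).exists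
  by_cases hss : s₁ ≤ s
  · have h1 := T.strictMono_ray.monotone hss
    have : T.f (inRay s) = h := le_antisymm hh (hs₁.trans h1)
    exact ⟨inRay s, LReach.refl _, this⟩
  · push Not at hss
    have hss' : (s : ℝ) < s₁ := hss
    let c : ℝ → Ico (0 : ℝ) 1 := fun t =>
      ⟨projIcc (s : ℝ) s₁ hss'.le t, s.2.1.trans (projIcc (s : ℝ) s₁ hss'.le t).2.1,
        (projIcc (s : ℝ) s₁ hss'.le t).2.2.trans_lt s₁.2.2⟩
    have hc : Continuous c := by
      refine Continuous.subtype_mk ?_ _
      exact continuous_subtype_val.comp continuous_projIcc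
    have hcv : ∀ t ∈ Icc (s : ℝ) s₁, (c t : ℝ) = t := by
      intro t ht
      simp only [c]
      rw [projIcc_of_mem hss'.le ht]
    have hc1 : c s = s := Subtype.ext (hcv s (left_mem_Icc.2 hss'.le))
    have hc2 : c s₁ = s₁ := Subtype.ext (hcv s₁ (right_mem_Icc.2 hss'.le))
    have hmono : StrictMonoOn (fun t => T.f (inRay (c t))) (Icc (s : ℝ) s₁) := by
      intro t ht t' ht' htt'
      apply T.strictMono_ray
      show (c t : ℝ) < c t'
      rw [hcv t ht, hcv t' ht']
      exact htt'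
    have hcont : Continuous (fun t => T.f (inRay (c t))) :=
      T.continuous_f.comp (continuous_inRay.comp hc)
    obtain ⟨t, ht, hth⟩ := intermediate_value_Icc hss'.le hcont.continuousOn
      (show h ∈ Icc (T.f (inRay (c s))) (T.f (inRay (c s₁))) by rw [hc1, hc2]; exact ⟨hh, hs₁⟩)
    refine ⟨inRay (c t), ?_, hth⟩
    have hcc : ContinuousOn (fun t => (inRay (c t) : T.Pt)) (Icc (s : ℝ) t) :=
      (continuous_inRay.comp hc).continuousOn
    have := lreach_of_strictMonoOn ht.1 hcc (hmono.mono (Icc_subset_Icc le_rfl ht.2))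
    rwa [hc1] at this

lemma lreach_root (x : Realization T.G) : T.LReach (inX x) (inX T.x₀) := by
  rcases arcJoined T.isTree x T.x₀ with h | ⟨c, a, b, h⟩
  · rw [h]
    exact LReach.refl _
  · have := lreach_of_strictMonoOn h.lt.le (continuous_inX.comp_continuousOn h.cont)
      (T.arc_strictMonoOn h)
    simpa [h.left, h.right] using this

/-- Existence of shifts. -/
lemma exists_lreach (x : T.Pt) {h : ℝ} (hh : T.f x ≤ h) :
    ∃ y : T.Pt, T.LReach x y ∧ T.f y = h := by
  rcases cases_pt x with ⟨p, rfl⟩ | ⟨s, rfl⟩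
  · have hr := lreach_root p
    by_cases hroot : h ≤ T.f (inX T.x₀)
    · obtain ⟨hle, g, hg, hg1, hg2, hgf⟩ := hr
      have hsub : Icc (T.f (inX p)) h ⊆ Icc (T.f (inX p)) (T.f (inX T.x₀)) :=
        Icc_subset_Icc le_rfl hroot
      have hhI : h ∈ Icc (T.f (inX p)) (T.f (inX T.x₀)) := ⟨hh, hroot⟩
      have hfh := hgf h hhI
      refine ⟨g h, ⟨by rw [hfh]; exact hh, g, ?_, hg1, by rw [hfh], ?_⟩, hfh⟩
      · rw [hfh]
        exact hg.mono hsub
      · rw [hfh]
        exact fun l hl => hgf l (hsub hl)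
    · push Not at hroot
      rw [inX_root] at hr hroot
      obtain ⟨y, hy, hyh⟩ := exists_lreach_ray zeroRay hroot.le
      exact ⟨y, hr.trans hy, hyh⟩
  · exact exists_lreach_ray s hh

/-- For `t ≥ 0` and every `x` there is exactly one point `y = i^t(x)`, which is reached from `x`
by an `f`-increasing path and has `f y = f x + t`. -/
theorem existsUnique_isShift (T : MTree) {t : ℝ} (ht : 0 ≤ t) (x : T.Pt) :
    ∃! y, T.IsShift t x y := by
  obtain ⟨y, hy, hyf⟩ := exists_lreach x (h := T.f x + t) (by linarith)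
  refine ⟨y, ⟨reaches_iff_lreach.2 hy, hyf⟩, ?_⟩
  rintro z ⟨hz, hzf⟩
  exact (reaches_iff_lreach.1 hz).unique hy (by rw [hzf, hyf])

end MTree

end Pool.Agent
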