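import Pool.Agent.MergeTree.Line

/-!
# Upper bound for the intrinsic distance of the example
-/

set_option autoImplicit false

namespace Pool.Agent

open Set Filter Topology Pool.Agent.MergeTree

open scoped ENNReal NNReal

namespace MTree

section Stars

variable {n : ℕ} {ht ht' : Fin (n + 1) → ℝ} (hlt : ∀ v, v ≠ 0 → ht v < ht 0)
  (hlt' : ∀ v, v ≠ 0 → ht' v < ht' 0)

/-- The map of stars preserving branches and raising the height by `ε`. -/
noncomputable def starMap {v₀ : Fin (n + 1)} (hv₀ : v₀ ≠ 0) (ε : ℝ) (p : (star n ht hlt).Pt) :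
    (star n ht' hlt').Pt :=
  branch ht' hlt' (exists_branch ht hlt hv₀ p).choose_spec.choose ((star n ht hlt).f p + ε)

lemma branch_eq_branch {v w : Fin (n + 1)} (hv : v ≠ 0) (hw : w ≠ 0) {l : ℝ} (hl : ht 0 ≤ l) :
    branch ht hlt hv l = branch ht hlt hw l := by
  have h1 : ht v ≤ l := (hlt v hv).le.trans hl
  have := eq_branch_of_ge ht hlt hw (p := branch ht hlt hv l) (by rw [f_branch _ _ hv h1]; exact hl)
  rwa [f_branch _ _ hv h1] at this

lemma starMap_eq {v₀ : Fin (n + 1)} (hv₀ : v₀ ≠ 0) {ε : ℝ} (hε : |ht 0 - ht' 0| ≤ ε)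
    {p : (star n ht hlt).Pt} {v : Fin (n + 1)} (hv : v ≠ 0) (hvp : ht v ≤ (star n ht hlt).f p)
    (hp : p = branch ht hlt hv ((star n ht hlt).f p)) :
    starMap hlt hlt' hv₀ ε p = branch ht' hlt' hv ((star n ht hlt).f p + ε) := by
  have hspec := (exists_branch ht hlt hv₀ p).choose_spec.choose_spec
  set w := (exists_branch ht hlt hv₀ p).choose with hw
  have hw0 : w ≠ 0 := (exists_branch ht hlt hv₀ p).choose_spec.choose
  have h1 : starMap hlt hlt' hv₀ ε p = branch ht' hlt' hw0 ((star n ht hlt).f p + ε) := rfl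
  rw [h1]
  by_cases hp0 : ht 0 ≤ (star n ht hlt).f p
  · apply branch_eq_branch
    have := (abs_le.1 hε).1
    linarith
  · push Not at hp0
    by_cases hvw : v = w
    · subst hvw
      rfl
    · exfalso
      exact branch_ne ht hlt hv hw0 hvw hvp hp0 hspec.1 hp0 (hp.symm.trans hspec.2)

lemma continuous_starMap {v₀ : Fin (n + 1)} (hv₀ : v₀ ≠ 0) {ε : ℝ} (hε : |ht 0 - ht' 0| ≤ ε) :
    Continuous (starMap hlt hlt' hv₀ ε) := by
  let F : {v : Fin (n + 1) // v ≠ 0} → Set (star n ht hlt).Pt := fun v =>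
    {p | ht v.1 ≤ (star n ht hlt).f p ∧ p = branch ht hlt v.2 ((star n ht hlt).f p)}
  refine (locallyFinite_of_finite F).continuous ?_ ?_ ?_
  · rw [eq_univ_iff_forall]
    intro p
    obtain ⟨v, hv, h1, h2⟩ := exists_branch ht hlt hv₀ p
    exact mem_iUnion.2 ⟨⟨v, hv⟩, h1, h2⟩
  · intro v
    refine (isClosed_le continuous_const (star n ht hlt).continuous_f).inter ?_
    exact isClosed_eq continuous_id
      ((continuous_branch ht hlt v.2).comp (star n ht hlt).continuous_f)
  · intro v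
    have : ContinuousOn (fun p : (star n ht hlt).Pt =>
        branch ht' hlt' v.2 ((star n ht hlt).f p + ε)) (F v) :=
      ((continuous_branch ht' hlt' v.2).comp
        ((star n ht hlt).continuous_f.add continuous_const)).continuousOn
    exact this.congr fun p hp => starMap_eq hlt hlt' hv₀ hε v.2 hp.1 hp.2

/-- Star trees whose heights differ by at most `ε` are `ε`-interleaved. -/
lemma interleaved_star {v₀ : Fin (n + 1)} (hv₀ : v₀ ≠ 0) {ε : ℝ}
    (hε : ∀ v, |ht v - ht' v| ≤ ε) : Interleaved ε (star n ht hlt) (star n ht' hlt') := by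
  have hε' : ∀ v, |ht' v - ht v| ≤ ε := fun v => by rw [abs_sub_comm]; exact hε v
  have hε0 : 0 ≤ ε := (abs_nonneg _).trans (hε 0)
  have key : ∀ {g g' : Fin (n + 1) → ℝ} (hg : ∀ v, v ≠ 0 → g v < g 0)
      (hg' : ∀ v, v ≠ 0 → g' v < g' 0) (hgg : ∀ v, |g v - g' v| ≤ ε) (p : (star n g hg).Pt),
      (star n g' hg').f (starMap hg hg' hv₀ ε p) = (star n g hg).f p + ε ∧
      (star n g hg).IsShift (2 * ε) p (starMap hg' hg hv₀ ε (starMap hg hg' hv₀ ε p)) := by
    intro g g' hg hg' hgg p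
    have hgg' : |g' 0 - g 0| ≤ ε := by rw [abs_sub_comm]; exact hgg 0
    obtain ⟨v, hv, h1, h2⟩ := exists_branch g hg hv₀ p
    have h3 := starMap_eq hg hg' hv₀ (hgg 0) hv h1 h2
    have h4 : g' v ≤ (star n g hg).f p + ε := by
      have := (abs_le.1 (hgg v)).1
      linarith
    have h5 : (star n g' hg').f (starMap hg hg' hv₀ ε p) = (star n g hg).f p + ε := by
      rw [h3, f_branch _ _ hv h4]
    refine ⟨h5, ?_⟩
    have h6 := starMap_eq hg' hg hv₀ hgg' (p := starMap hg hg' hv₀ ε p) hv (by rw [h5]; exact h4)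
      (by rw [h5]; exact h3)
    rw [h6, h5]
    have h7 := lreach_branch g hg hv h1
      (show (star n g hg).f p ≤ (star n g hg).f p + ε + ε by linarith)
    rw [← h2] at h7
    refine ⟨reaches_iff_lreach.2 h7, ?_⟩
    rw [f_branch _ _ hv (by linarith)]
    ring
  exact ⟨⟨_, continuous_starMap hlt hlt' hv₀ (hε 0)⟩, ⟨_, continuous_starMap hlt' hlt hv₀ (hε' 0)⟩,
    fun x => (key hlt hlt' hε x).1, fun x => (key hlt' hlt hε' x).1,
    fun x => (key hlt hlt' hε x).2, fun x => (key hlt' hlt hε' x).2⟩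

end Stars

section Fam

variable (k : ℕ)

/-- Heights: centre at `h + 1 + u`, one leaf at `0`, all other leaves at `h + 1 - u`. -/
noncomputable def famHt (h u : ℝ) : Fin (k + 2 + 1) → ℝ :=
  fun v => if v = 0 then h + 1 + u else if v = 1 then 0 else h + 1 - u

variable {h u : ℝ}

lemma famHt_zero (h u : ℝ) : famHt k h u 0 = h + 1 + u := by simp [famHt]

lemma famHt_one (h u : ℝ) : famHt k h u 1 = 0 := by
  unfold famHt
  rw [if_neg (one_ne_zero' k), if_pos rfl]

lemma famHt_other {v : Fin (k + 2 + 1)} (hv : v ≠ 0) (hv1 : v ≠ 1) :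
    famHt k h u v = h + 1 - u := by
  unfold famHt
  rw [if_neg hv, if_neg hv1]

lemma famHt_lt (hh : 0 ≤ h) (hu : 0 < u) (v : Fin (k + 2 + 1)) (hv : v ≠ 0) :
    famHt k h u v < famHt k h u 0 := by
  rw [famHt_zero]
  by_cases hv1 : v = 1
  · rw [hv1, famHt_one]
    linarith
  · rw [famHt_other k hv hv1]
    linarith

/-- The trees interpolating between the example tree (`u = 1`) and the half-line (`u = 0`). -/
@[reducible] noncomputable def fam (hh : 0 ≤ h) (hu : 0 < u) : MTree :=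
  star (k + 2) (famHt k h u) (famHt_lt k hh hu)

lemma dI_fam (hh : 0 ≤ h) (hu : 0 < u) {u' : ℝ} (hu' : 0 < u') :
    dI (fam k hh hu) (fam k hh hu') ≤ ENNReal.ofReal |u - u'| := by
  have hI : Interleaved ((Real.toNNReal |u - u'| : ℝ≥0) : ℝ) (fam k hh hu) (fam k hh hu') := by
    rw [Real.coe_toNNReal _ (abs_nonneg _)]
    refine interleaved_star _ _ (one_ne_zero' k) fun v => ?_
    by_cases hv : v = 0
    · rw [hv, famHt_zero, famHt_zero]
      apply le_of_eq
      congr 1
      ring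
    · by_cases hv1 : v = 1
      · rw [hv1, famHt_one, famHt_one, sub_self, abs_zero]
        exact abs_nonneg _
      · rw [famHt_other k hv hv1, famHt_other k hv hv1, abs_sub_comm u u']
        apply le_of_eq
        congr 1
        ring
  exact iInf₂_le (f := fun (ε : ℝ≥0) (_ : Interleaved ε (fam k hh hu) (fam k hh hu')) =>
    (ε : ℝ≥0∞)) _ hI

lemma fam_nonneg (hh : 0 ≤ h) (hu : 0 < u) (hu1 : u ≤ 1) (p : (fam k hh hu).Pt) :
    0 ≤ (fam k hh hu).f p := by
  obtain ⟨v, hv, h1, -⟩ := exists_branch _ (famHt_lt k hh hu) (one_ne_zero' k) p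
  refine le_trans ?_ h1
  by_cases hv1 : v = 1
  · rw [hv1, famHt_one]
  · rw [famHt_other k hv hv1]
    linarith

lemma dI_fam_halfLine (hh : 0 ≤ h) (hu : 0 < u) (hu1 : u ≤ 1) :
    dI (fam k hh hu) (halfLine 0) ≤ ENNReal.ofReal u := by
  obtain ⟨p₀, hp, hp0⟩ := halfLine_isBot 0
  have hH : ∀ y, 0 ≤ (halfLine 0).f y := fun y => by
    have := (hp y).1
    rwa [hp0] at this
  have h0 := fam_nonneg k hh hu hu1
  have hx : ∀ x, (halfLine 0).f p₀ ≤ (fam k hh hu).f x + u := fun x => by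
    rw [hp0]
    linarith [h0 x]
  have hb : ∀ l : ℝ, 0 ≤ l → (fam k hh hu).f
      (branch (famHt k h u) (famHt_lt k hh hu) (one_ne_zero' k) l) = l := by
    intro l hl
    exact f_branch _ _ _ (by rw [famHt_one]; exact hl)
  have hI : Interleaved ((Real.toNNReal u : ℝ≥0) : ℝ) (fam k hh hu) (halfLine 0) := by
    rw [Real.coe_toNNReal _ hu.le]
    refine ⟨⟨fun x => (halfLine 0).sec p₀ ((fam k hh hu).f x + u), ?_⟩,
      ⟨fun y => branch (famHt k h u) (famHt_lt k hh hu) (one_ne_zero' k) ((halfLine 0).f y + u),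
      ?_⟩, ?_, ?_, ?_, ?_⟩
    · exact (continuousOn_sec p₀).comp_continuous
        ((fam k hh hu).continuous_f.add continuous_const) hx
    · exact (continuous_branch _ _ _).comp ((halfLine 0).continuous_f.add continuous_const)
    · intro x
      exact (sec_spec (hx x)).2
    · intro y
      exact hb _ (by linarith [hH y])
    · intro x
      show (fam k hh hu).IsShift (2 * u) x (branch (famHt k h u) (famHt_lt k hh hu)
        (one_ne_zero' k) ((halfLine 0).f ((halfLine 0).sec p₀ ((fam k hh hu).f x + u)) + u))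
      rw [(sec_spec (hx x)).2]
      refine ⟨reaches_iff_lreach.2 ?_, ?_⟩
      · obtain ⟨v, hv, h1, h2⟩ := exists_branch _ (famHt_lt k hh hu) (one_ne_zero' k) x
        have h3 := lreach_branch (famHt k h u) (famHt_lt k hh hu) hv h1
          (show (fam k hh hu).f x ≤ (fam k hh hu).f x + u + u by linarith)
        rw [← h2] at h3
        by_cases hv1 : v = 1
        · subst hv1
          exact h3
        · rw [famHt_other k hv hv1] at h1
          rw [branch_eq_branch (famHt_lt k hh hu) hv (one_ne_zero' k)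
            (by rw [famHt_zero]; linarith)] at h3
          exact h3
      · rw [hb _ (by linarith [h0 x])]
        ring
    · intro y
      show (halfLine 0).IsShift (2 * u) y ((halfLine 0).sec p₀ ((fam k hh hu).f
        (branch (famHt k h u) (famHt_lt k hh hu) (one_ne_zero' k) ((halfLine 0).f y + u)) + u))
      rw [hb _ (by linarith [hH y])]
      have h1 : (halfLine 0).f p₀ ≤ (halfLine 0).f y + u + u := by
        rw [hp0]
        linarith [hH y]
      have h2 := sec_spec h1
      refine ⟨reaches_iff_lreach.2 ((hp y).of_le h2.1 (by rw [h2.2]; linarith)), ?_⟩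
      rw [h2.2]
      ring
  exact iInf₂_le (f := fun (ε : ℝ≥0) (_ : Interleaved ε (fam k hh hu) (halfLine 0)) =>
    (ε : ℝ≥0∞)) _ hI

end Fam

end MTree

namespace MT

open MTree

/-- The class of the interpolating tree, `u ∈ [0, 1]`. -/
noncomputable def famMT (k : ℕ) {h : ℝ} (hh : 0 ≤ h) (u : ℝ) : MT :=
  if hu : 0 < u then mk (fam k hh hu) else mk (halfLine 0)

lemma dI_famMT_zero (k : ℕ) {h : ℝ} (hh : 0 ≤ h) {u : ℝ} (hu0 : 0 ≤ u) (hu1 : u ≤ 1) :
    dI (famMT k hh u) (mk (halfLine 0)) ≤ ENNReal.ofReal u := by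
  unfold famMT
  by_cases hu : 0 < u
  · rw [dif_pos hu]
    exact dI_fam_halfLine k hh hu hu1
  · rw [dif_neg hu, dI_self]
    exact zero_le

lemma dI_famMT (k : ℕ) {h : ℝ} (hh : 0 ≤ h) {u u' : ℝ} (hu0 : 0 ≤ u) (hu1 : u ≤ 1)
    (hu0' : 0 ≤ u') (hu1' : u' ≤ 1) :
    dI (famMT k hh u) (famMT k hh u') ≤ ENNReal.ofReal |u - u'| := by
  by_cases hu' : 0 < u'
  · by_cases hu : 0 < u
    · unfold famMT
      rw [dif_pos hu, dif_pos hu']
      exact dI_fam k hh hu hu'
    · have h0 : u = 0 := le_antisymm (not_lt.1 hu) hu0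
      subst h0
      have : famMT k hh 0 = mk (halfLine 0) := by
        unfold famMT
        rw [dif_neg hu]
      rw [this, dI_comm, zero_sub, abs_neg, abs_of_pos hu']
      exact dI_famMT_zero k hh hu0' hu1'
  · have h0 : u' = 0 := le_antisymm (not_lt.1 hu') hu0'
    subst h0
    have : famMT k hh 0 = mk (halfLine 0) := by
      unfold famMT
      rw [dif_neg hu']
    rw [this, sub_zero, abs_of_nonneg hu0]
    exact dI_famMT_zero k hh hu0 hu1

/-- The path through the half-line. -/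
noncomputable def thePath (k : ℕ) {h h' : ℝ} (hh : 0 ≤ h) (hh' : 0 ≤ h') (r : ℝ) : MT :=
  if r ≤ 0 then famMT k hh (-r) else famMT k hh' r

lemma dI_thePath (k : ℕ) {h h' : ℝ} (hh : 0 ≤ h) (hh' : 0 ≤ h') {r r' : ℝ}
    (hr : r ∈ Icc (-1 : ℝ) 1) (hr' : r' ∈ Icc (-1 : ℝ) 1) :
    dI (thePath k hh hh' r) (thePath k hh hh' r') ≤ ENNReal.ofReal |r - r'| := by
  have mixed : ∀ r r' : ℝ, r ∈ Icc (-1 : ℝ) 1 → r' ∈ Icc (-1 : ℝ) 1 → r ≤ 0 → 0 < r' →
      dI (famMT k hh (-r)) (famMT k hh' r') ≤ ENNReal.ofReal |r - r'| := by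
    intro r r' hr hr' h1 h2
    have e : |r - r'| = -r + r' := by
      rw [abs_of_neg (by linarith)]
      ring
    rw [e, ENNReal.ofReal_add (by linarith) h2.le]
    refine (dI_triangle _ (mk (halfLine 0)) _).trans (add_le_add ?_ ?_)
    · exact dI_famMT_zero k hh (by linarith) (by linarith [hr.1])
    · rw [dI_comm]
      exact dI_famMT_zero k hh' h2.le hr'.2
  unfold thePath
  by_cases h1 : r ≤ 0 <;> by_cases h2 : r' ≤ 0
  · rw [if_pos h1, if_pos h2]
    have := dI_famMT k hh (u := -r) (u' := -r') (by linarith) (by linarith [hr.1]) (by linarith)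
      (by linarith [hr'.1])
    rwa [show -r - -r' = -(r - r') by ring, abs_neg] at this
  · rw [if_pos h1, if_neg h2]
    exact mixed r r' hr hr' h1 (not_le.1 h2)
  · rw [if_neg h1, if_pos h2, dI_comm, abs_sub_comm]
    exact mixed r' r hr' hr h2 (not_le.1 h1)
  · rw [if_neg h1, if_neg h2]
    exact dI_famMT k hh' (not_le.1 h1).le hr.2 (not_le.1 h2).le hr'.2

/-- A Lipschitz path is continuous and of bounded length. -/
lemma lipschitz_path {γ : unitInterval → MT} {C : ℝ} (hC : 0 < C)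
    (h : ∀ s t, dI (γ s) (γ t) ≤ ENNReal.ofReal (C * |(s : ℝ) - t|)) :
    IsContinuousPath γ ∧ length γ ≤ ENNReal.ofReal C := by
  constructor
  · intro t ε hε
    by_cases htop : ε = ⊤
    · refine ⟨1, one_pos, fun s _ => ?_⟩
      rw [htop]
      exact (h s t).trans_lt ENNReal.ofReal_lt_top
    · have hpos : 0 < ε.toReal := ENNReal.toReal_pos hε.ne' htop
      refine ⟨ε.toReal / C, by positivity, fun s hs => ?_⟩
      refine (h s t).trans_lt ?_
      rw [← ENNReal.ofReal_toReal htop, ENNReal.ofReal_lt_ofReal_iff hpos]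
      rw [lt_div_iff₀ hC] at hs
      linarith
  · unfold length
    refine iSup_le fun k => iSup_le fun t => iSup_le fun ht => ?_
    obtain ⟨hmono, h0, h1⟩ := ht
    have hterm : ∀ i : Fin k, dI (γ (t i.succ)) (γ (t i.castSucc)) ≤
        ENNReal.ofReal (C * ((t i.succ : ℝ) - t i.castSucc)) := by
      intro i
      have h2 := h (t i.succ) (t i.castSucc)
      rwa [abs_of_nonneg] at h2
      have : t i.castSucc ≤ t i.succ := hmono (Fin.castSucc_lt_succ (i := i)).le
      exact sub_nonneg.2 this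
    refine (Finset.sum_le_sum fun i _ => hterm i).trans ?_
    rw [← ENNReal.ofReal_sum_of_nonneg]
    · apply ENNReal.ofReal_le_ofReal
      rw [← Finset.mul_sum, sum_telescope (fun i => (t i : ℝ)), h0, h1]
      simp
    · intro i _
      have : t i.castSucc ≤ t i.succ := hmono (Fin.castSucc_lt_succ (i := i)).le
      exact mul_nonneg hC.le (sub_nonneg.2 this)

lemma famMT_mem (k : ℕ) {h : ℝ} (hh : 0 ≤ h) (u : ℝ) : famMT k hh u ∈ MTn (k + 2) := by
  unfold famMT
  by_cases hu : 0 < u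
  · rw [dif_pos hu]
    exact ⟨_, rfl, leaves_star _ _⟩
  · rw [dif_neg hu]
    exact ⟨_, rfl, (leaves_star _ _).trans (Nat.zero_le _)⟩

lemma intrinsic_le_two (k : ℕ) {h h' : ℝ} (hh : 0 ≤ h) (hh' : 0 ≤ h') :
    intrinsic (k + 2) (famMT k hh 1) (famMT k hh' 1) ≤ 2 := by
  have hmem : ∀ s : unitInterval, 2 * (s : ℝ) - 1 ∈ Icc (-1 : ℝ) 1 := fun s =>
    ⟨by linarith [s.2.1], by linarith [s.2.2]⟩
  have hL := lipschitz_path (γ := fun s => thePath k hh hh' (2 * (s : ℝ) - 1)) two_pos (by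
    intro s t
    refine (dI_thePath k hh hh' (hmem s) (hmem t)).trans (le_of_eq ?_)
    congr 1
    rw [show (2 * (s : ℝ) - 1) - (2 * (t : ℝ) - 1) = 2 * ((s : ℝ) - t) by ring, abs_mul, abs_two])
  unfold intrinsic
  refine iInf₂_le_of_le _ ⟨hL.1, ?_, ?_, ?_⟩ (hL.2.trans (by simp))
  · show thePath k hh hh' (2 * ((0 : unitInterval) : ℝ) - 1) = _
    unfold thePath
    have : (2 * ((0 : unitInterval) : ℝ) - 1) = -1 := by simp
    rw [this, if_pos (by norm_num), neg_neg]
  · show thePath k hh hh' (2 * ((1 : unitInterval) : ℝ) - 1) = _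
    unfold thePath
    have : (2 * ((1 : unitInterval) : ℝ) - 1) = 1 := by
      rw [show ((1 : unitInterval) : ℝ) = 1 from rfl]
      norm_num
    rw [this, if_neg (by norm_num)]
  · intro s
    show thePath k hh hh' (2 * (s : ℝ) - 1) ∈ MTn (k + 2)
    unfold thePath
    split_ifs
    · exact famMT_mem k hh _
    · exact famMT_mem k hh' _

lemma famMT_one (k : ℕ) {h : ℝ} (hh : 0 ≤ h) :
    famMT k hh 1 = mk (ex k hh) := by
  unfold famMT
  rw [dif_pos one_pos]
  have hht : famHt k h 1 = exHt k h := by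
    funext v
    unfold famHt exHt
    split_ifs <;> ring
  congr 1
  unfold fam ex
  congr 1

/-- For `n ≥ 2` there are two classes in `MT_n` at interleaving distance `1` and intrinsic
distance `2`. -/
theorem exists_pair (n : ℕ) (hn : 2 ≤ n) : ∃ x ∈ MTn n, ∃ y ∈ MTn n,
    dI x y = 1 ∧ intrinsic n x y = 2 := by
  obtain ⟨k, rfl⟩ : ∃ k, n = k + 2 := ⟨n - 2, by omega⟩
  have h0 : (0 : ℝ) ≤ 0 := le_rfl
  have h3 : (0 : ℝ) ≤ 3 := by norm_num
  have hnb : ∀ z ∈ MTn (k + 2), ¬ (dI z (mk (ex k h0)) < 1 ∧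
      dI z (mk (ex k h3)) < 1) := by
    rintro z ⟨S, rfl, hS⟩ ⟨h1, h2⟩
    rw [dI_mk, MTree.dI_comm] at h1
    rw [dI_mk] at h2
    obtain ⟨ε, hε, hI⟩ := exists_of_dI_lt h1
    obtain ⟨ε', hε', hI'⟩ := exists_of_dI_lt h2
    exact not_both k h0 h3 (by norm_num) hS ε.2 (by exact_mod_cast hε) ε'.2
      (by exact_mod_cast hε') hI hI'
  have hx : mk (ex k h0) ∈ MTn (k + 2) := ⟨_, rfl, leaves_star _ _⟩
  have hy : mk (ex k h3) ∈ MTn (k + 2) := ⟨_, rfl, leaves_star _ _⟩
  refine ⟨mk (ex k h0), hx, mk (ex k h3), hy, ?_, ?_⟩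
  · apply le_antisymm
    · have := iInf₂_le (f := fun (ε : ℝ≥0) (_ : Interleaved ε (ex k h0) (ex k h3)) => (ε : ℝ≥0∞))
        1 (by simpa using interleaved_ex k h0 h3)
      simp only [ENNReal.coe_one] at this
      exact this
    · by_contra hcon
      push Not at hcon
      exact hnb _ hx ⟨by rw [dI_self]; exact one_pos, hcon⟩
  · apply le_antisymm
    · have := intrinsic_le_two k h0 h3
      rwa [famMT_one, famMT_one] at this
    · have := two_mul_le_intrinsic (n := k + 2) (r := 1) one_pos hnb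
      simpa using this

end MT

end Pool.Agent
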